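import Pool.Agent.helper20.VVO.Spec

set_option autoImplicit false

open Filter Topology

namespace Pool.Agent.VVO

open Pool.Agent.PB Pool.Agent.ISO Pool.Agent.ISA

theorem ONE_cnt_congr {k : ℕ} (l : ℕ) (S : Finset (Fin k)) (A B : Finset (Fin k) → Prop)
    (h : ∀ P, P ⊆ S → (A P ↔ B P)) : cnt l S A = cnt l S B := by
  classical
  unfold cnt
  have h1 : (S.powersetCard l).filter A = (S.powersetCard l).filter B := by
    apply Finset.filter_congr
    intro P hP
    exact h P (Finset.mem_powersetCard.mp hP).1
  have h2 : ∀ (i1 i2 : DecidablePred A), @Finset.filter _ A i1 (S.powersetCard l) = @Finset.filter _ A i2 (S.powersetCard l) := by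
    intro i1 i2
    have : i1 = i2 := Subsingleton.elim _ _
    rw [this]
  have h3 : ∀ (i1 i2 : DecidablePred B), @Finset.filter _ B i1 (S.powersetCard l) = @Finset.filter _ B i2 (S.powersetCard l) := by
    intro i1 i2
    have : i1 = i2 := Subsingleton.elim _ _
    rw [this]
  rw [h2 _ (fun P => Classical.propDecidable (A P)), h3 _ (fun P => Classical.propDecidable (B P))] at h1
  rw [h1]

theorem ONE (hINQ : INQ_stmt) (hHCD : HCD_stmt) (hSWC : SWC_stmt) : ONE_stmt := by
  classical
  intro n w N k l j m q K p γ f h W 𝒞 hl hlk hCm hq hW hP hconst htest hγ hγ4 hK hnum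
  have hcard : Real.log (Fintype.card (Fin n → Bool)) = n * Real.log 2 := by
    simp [Real.log_pow]
  rcases hHCD (Fin n → Bool) (fun x => wit f x = 1) (fun x => wit f x = 0) 𝒞 γ K
    (by intro a ⟨h1, h2⟩; omega) hconst hγ hγ4 (by rw [hcard]; exact hK) with
    hL | ⟨Dy, Dn, hy0, hy1, hys, hn0, hn1, hns, hC⟩
  · exact hL
  · exfalso
    obtain ⟨uw, huw⟩ : ∃ uw : (Fin n → Bool) → (Fin w → Bool), ∀ x, wit f x = 1 → ∀ y, f (Fin.append x y) = true ↔ y = uw x := by
      have h1 : ∀ x : Fin n → Bool, ∃ u : Fin w → Bool, wit f x = 1 → ∀ y, f (Fin.append x y) = true ↔ y = u := by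
        intro x
        by_cases hx : wit f x = 1
        · unfold wit at hx
          obtain ⟨u, hu⟩ := Finset.card_eq_one.mp hx
          refine ⟨u, fun _ y => ?_⟩
          have := congrArg (fun s => y ∈ s) hu
          simpa using this
        · exact ⟨fun _ => false, fun h => absurd h hx⟩
      choose u hu using h1
      exact ⟨u, hu⟩
    have hno : ∀ x, wit f x = 0 → ∀ y, f (Fin.append x y) = false := by
      intro x hx y
      unfold wit at hx
      rw [Finset.card_eq_zero] at hx
      by_contra hne
      have hy : y ∈ (Finset.univ.filter fun y : Fin w → Bool => f (Fin.append x y) = true) := by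
        rw [Finset.mem_filter]
        exact ⟨Finset.mem_univ _, by simpa using hne⟩
      rw [hx] at hy
      exact absurd hy (Finset.notMem_empty _)
    have hmain := hINQ (Fin n → Bool) Dy Dn k l j q
      (fun t X P => W t (Fin.append (enc N X) (encP P (zp P (fun i => uw (X i))))) = true) (4 * γ) p hl hlk hq (by positivity)
      hy0 hy1 hn0 hn1 ?_ ?_
    · linarith
    · intro t S i X a hi ha haj
      set F : BF n := fun x => decide (a ≤ cnt l (S.erase i) (fun P => W t (Fin.append (enc N (Function.update X i x)) (encP P (zp P (fun i' => uw (X i'))))) = true)) with hF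
      have hmem : F ∈ 𝒞 := htest t (S.erase i) i X (fun i' => uw (X i')) a F ha haj (by intro x; simp [hF])
      have hind : ∀ x, ind (F x = true) = ind (a ≤ cnt l (S.erase i)
          ((fun t X P => W t (Fin.append (enc N X) (encP P (zp P (fun i => uw (X i))))) = true) t (Function.update X i x))) := by
        intro x
        have h1 : cnt l (S.erase i) (fun P => W t (Fin.append (enc N (Function.update X i x)) (encP P (zp P (fun i' => uw (X i'))))) = true) =
            cnt l (S.erase i) (fun P => W t (Fin.append (enc N (Function.update X i x)) (encP P (zp P (fun i' => uw (Function.update X i x i'))))) = true) := by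
          apply ONE_cnt_congr
          intro P hP
          have hz : zp P (fun i' => uw (X i')) = zp P (fun i' => uw (Function.update X i x i')) := by
            funext i'
            unfold zp
            by_cases hi' : i' ∈ P
            · rw [if_pos hi', if_pos hi']
              have : i' ≠ i := by
                rintro rfl
                exact absurd (hP hi') (Finset.notMem_erase _ _)
              show uw (X i') = uw (Function.update X i x i')
              rw [Function.update_of_ne this]
            · rw [if_neg hi', if_neg hi']
          rw [hz]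
        simp only [hF, decide_eq_true_eq]
        rw [h1]
      have := hC F hmem
      simp only [hind] at this
      exact this
    · intro S X hS hy hn
      obtain ⟨h1, h2⟩ := hSWC n w k N l f h X S (fun i => uw (X i)) (fun i hi => huw (X i) (hys _ (hy i hi)))
        (fun i hi => hno _ (hns _ (hn i hi)))
      have h3 := hP (enc N X) (by rw [h1]; exact Nat.choose_pos hS)
        (by
          rw [h1]
          refine le_trans (Nat.choose_le_choose l ?_) hCm
          simpa using Finset.card_le_univ S)
      refine le_trans h3 (le_of_eq ?_)
      apply Finset.sum_congr rfl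
      intro t _
      rw [h2 (W t) (hW t)]

end Pool.Agent.VVO
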