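import Pool.Agent.helper20.VVO.Spec

set_option autoImplicit false

open Filter Topology

namespace Pool.Agent.VVO

open Pool.Agent.PB Pool.Agent.ISO Pool.Agent.ISA

theorem SWC_enc {n k N : ℕ} (h : k * n ≤ N) (X : Fin k → Fin n → Bool) (i : Fin k) (b : Fin n) :
    enc N X (Fin.castLE h (finProdFinEquiv (i, b))) = X i b := by
  unfold enc
  have h1 : ((Fin.castLE h (finProdFinEquiv (i, b)) : Fin N) : ℕ) < k * n := (finProdFinEquiv (i, b)).2
  rw [dif_pos h1]
  have h2 : (⟨((Fin.castLE h (finProdFinEquiv (i, b)) : Fin N) : ℕ), h1⟩ : Fin (k * n)) = finProdFinEquiv (i, b) := by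
    apply Fin.ext
    rfl
  rw [h2, Equiv.symm_apply_apply]

theorem SWC_mem {n w k N l : ℕ} (f : BF (n + w)) (h : k * n ≤ N) (X : Fin k → Fin n → Bool) (Y : Fin (k + k * w) → Bool) :
    subV f N l h (Fin.append (enc N X) Y) = true ↔ ∃ (P : Finset (Fin k)) (z : Fin k → Fin w → Bool), Y = encP P z ∧ P.card = l ∧
      ∀ i, (i ∉ P ∧ z i = fun _ => false) ∨ (i ∈ P ∧ f (Fin.append (X i) (z i)) = true) := by
  unfold subV
  rw [decide_eq_true_eq]
  have e1 : ∀ i : Fin k, Fin.append (enc N X) Y (Fin.natAdd N (Fin.castAdd (k * w) i)) = Y (Fin.castAdd (k * w) i) :=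
    fun i => Fin.append_right _ _ _
  have e2 : ∀ (i : Fin k) (b : Fin w), Fin.append (enc N X) Y (Fin.natAdd N (Fin.natAdd k (finProdFinEquiv (i, b)))) =
      Y (Fin.natAdd k (finProdFinEquiv (i, b))) := fun i b => Fin.append_right _ _ _
  have e3 : ∀ (i : Fin k) (b : Fin n), Fin.append (enc N X) Y (Fin.castAdd (k + k * w) (Fin.castLE h (finProdFinEquiv (i, b)))) = X i b := by
    intro i b
    rw [Fin.append_left, SWC_enc]
  simp only [e1, e2, e3]
  constructor
  · rintro ⟨h1, h2⟩
    refine ⟨Finset.univ.filter fun i => Y (Fin.castAdd (k * w) i) = true, fun i b => Y (Fin.natAdd k (finProdFinEquiv (i, b))), ?_, h1, ?_⟩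
    · funext c
      refine Fin.addCases (fun c' => ?_) (fun c' => ?_) c
      · unfold encP
        rw [Fin.append_left]
        by_cases hc : Y (Fin.castAdd (k * w) c') = true
        · rw [hc]
          symm
          rw [decide_eq_true_eq]
          exact Finset.mem_filter.mpr ⟨Finset.mem_univ _, hc⟩
        · rw [Bool.eq_false_iff.mpr hc]
          symm
          rw [decide_eq_false_iff_not]
          exact fun hh => hc (Finset.mem_filter.mp hh).2
      · unfold encP
        rw [Fin.append_right]
        show _ = Y (Fin.natAdd k (finProdFinEquiv ((finProdFinEquiv.symm c').1, (finProdFinEquiv.symm c').2)))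
        rw [Prod.mk.eta, Equiv.apply_symm_apply]
    · intro i
      rcases h2 i with ⟨ha, hb⟩ | ⟨ha, hb⟩
      · left
        refine ⟨fun hh => ?_, ?_⟩
        · have := (Finset.mem_filter.mp hh).2
          rw [ha] at this
          exact absurd this (by decide)
        · funext b
          exact hb b
      · right
        exact ⟨Finset.mem_filter.mpr ⟨Finset.mem_univ _, ha⟩, hb⟩
  · rintro ⟨P, z, rfl, hc, hz⟩
    have f1 : ∀ i, encP P z (Fin.castAdd (k * w) i) = decide (i ∈ P) := by
      intro i
      unfold encP
      rw [Fin.append_left]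
    have f2 : ∀ i b, encP P z (Fin.natAdd k (finProdFinEquiv (i, b))) = z i b := by
      intro i b
      unfold encP
      rw [Fin.append_right, Equiv.symm_apply_apply]
    simp only [f1, f2]
    refine ⟨?_, ?_⟩
    · rw [← hc]
      congr 1
      ext i
      simp
    · intro i
      rcases hz i with ⟨ha, hb⟩ | ⟨ha, hb⟩
      · left
        refine ⟨by simpa using ha, fun b => by rw [hb]⟩
      · right
        exact ⟨by simpa using ha, hb⟩

theorem SWC : SWC_stmt := by
  classical
  intro n w k N l f h X S u hS hnS
  have key : ∀ Y : Fin (k + k * w) → Bool, subV f N l h (Fin.append (enc N X) Y) = true ↔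
      ∃ P ∈ S.powersetCard l, Y = encP P (zp P u) := by
    intro Y
    rw [SWC_mem]
    constructor
    · rintro ⟨P, z, rfl, hc, hz⟩
      have hPS : P ⊆ S := by
        intro i hi
        by_contra hiS
        rcases hz i with ⟨ha, _⟩ | ⟨_, hb⟩
        · exact ha hi
        · rw [hnS i hiS] at hb
          exact absurd hb (by decide)
      refine ⟨P, Finset.mem_powersetCard.mpr ⟨hPS, hc⟩, ?_⟩
      have : z = zp P u := by
        funext i
        unfold zp
        rcases hz i with ⟨ha, hb⟩ | ⟨ha, hb⟩
        · rw [if_neg ha, hb]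
        · rw [if_pos ha]
          exact (hS i (hPS ha) _).mp hb
      rw [this]
    · rintro ⟨P, hP, rfl⟩
      obtain ⟨hPS, hc⟩ := Finset.mem_powersetCard.mp hP
      refine ⟨P, zp P u, rfl, hc, fun i => ?_⟩
      by_cases hi : i ∈ P
      · right
        refine ⟨hi, ?_⟩
        unfold zp
        rw [if_pos hi]
        exact (hS i (hPS hi) _).mpr rfl
      · left
        refine ⟨hi, ?_⟩
        unfold zp
        rw [if_neg hi]
  have hinj : ∀ P P' : Finset (Fin k), encP P (zp P u) = encP P' (zp P' u) → P = P' := by
    intro P P' hh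
    ext i
    have := congrFun hh (Fin.castAdd (k * w) i)
    unfold encP at this
    rw [Fin.append_left, Fin.append_left, decide_eq_decide] at this
    exact this
  constructor
  · unfold wit
    have : (Finset.univ.filter fun Y : Fin (k + k * w) → Bool => subV f N l h (Fin.append (enc N X) Y) = true) =
        (S.powersetCard l).image fun P => encP P (zp P u) := by
      ext Y
      rw [Finset.mem_filter, Finset.mem_image, key]
      constructor
      · rintro ⟨_, P, hP, rfl⟩
        exact ⟨P, hP, rfl⟩
      · rintro ⟨P, hP, rfl⟩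
        exact ⟨Finset.mem_univ _, P, hP, rfl⟩
    rw [this, Finset.card_image_of_injective _ (fun P P' hh => hinj P P' hh), Finset.card_powersetCard]
  · intro W hW
    unfold wit cnt
    have : (Finset.univ.filter fun Y : Fin (k + k * w) → Bool => W (Fin.append (enc N X) Y) = true) =
        ((S.powersetCard l).filter fun P => W (Fin.append (enc N X) (encP P (zp P u))) = true).image fun P => encP P (zp P u) := by
      ext Y
      rw [Finset.mem_filter, Finset.mem_image]
      constructor
      · rintro ⟨_, hY⟩
        obtain ⟨P, hP, rfl⟩ := (key Y).mp (hW _ hY)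
        exact ⟨P, Finset.mem_filter.mpr ⟨hP, hY⟩, rfl⟩
      · rintro ⟨P, hP, rfl⟩
        exact ⟨Finset.mem_univ _, (Finset.mem_filter.mp hP).2⟩
    rw [this, Finset.card_image_of_injective _ (fun P P' hh => hinj P P' hh)]
    have h2 : ∀ (A : Finset (Fin k) → Prop) (i1 i2 : DecidablePred A), (@Finset.filter _ A i1 (S.powersetCard l)).card = (@Finset.filter _ A i2 (S.powersetCard l)).card := by
      intro A i1 i2
      have : i1 = i2 := Subsingleton.elim _ _
      rw [this]
    exact h2 _ _ _

end Pool.Agent.VVO
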