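import Pool.Agent.helper20.VVO.Spec

set_option autoImplicit false

open Filter Topology

namespace Pool.Agent.VVO

open Pool.Agent.PB Pool.Agent.ISO Pool.Agent.ISA

theorem TND_enc {n k N M : ℕ} (X : Fin k → Fin n → Bool) (i : Fin k) (ξ : Fin n → Fin M) (c : Fin N) :
    (∃ b : Bool, ∀ z : Fin M → Bool, enc N (Function.update X i (fun j => z (ξ j))) c = b) ∨
      ∃ j : Fin M, ∀ z : Fin M → Bool, enc N (Function.update X i (fun j => z (ξ j))) c = z j := by
  unfold enc
  by_cases h : (c : ℕ) < k * n
  · simp only [dif_pos h]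
    by_cases hi : (finProdFinEquiv.symm (⟨c, h⟩ : Fin (k * n))).1 = i
    · right
      refine ⟨ξ (finProdFinEquiv.symm (⟨c, h⟩ : Fin (k * n))).2, fun z => ?_⟩
      rw [hi, Function.update_self]
    · left
      refine ⟨X (finProdFinEquiv.symm (⟨c, h⟩ : Fin (k * n))).1 (finProdFinEquiv.symm (⟨c, h⟩ : Fin (k * n))).2, fun z => ?_⟩
      rw [Function.update_of_ne hi]
  · left
    exact ⟨false, fun z => by rw [dif_neg h]⟩

theorem TND_encP {k w M : ℕ} (π : Fin k → Fin M) (u : Fin k → Fin w → Bool) (c : Fin (k + k * w)) :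
    (∃ b : Bool, ∀ z : Fin M → Bool, encP (Finset.univ.filter fun i' => z (π i') = true)
      (zp (Finset.univ.filter fun i' => z (π i') = true) u) c = b) ∨
      ∃ j : Fin M, ∀ z : Fin M → Bool, encP (Finset.univ.filter fun i' => z (π i') = true)
      (zp (Finset.univ.filter fun i' => z (π i') = true) u) c = z j := by
  refine Fin.addCases (fun c' => ?_) (fun c' => ?_) c
  · right
    refine ⟨π c', fun z => ?_⟩
    unfold encP
    rw [Fin.append_left]
    by_cases h : z (π c') = true
    · simp [h]
    · simp [h]
  · by_cases hu : u (finProdFinEquiv.symm c').1 (finProdFinEquiv.symm c').2 = true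
    · right
      refine ⟨π (finProdFinEquiv.symm c').1, fun z => ?_⟩
      unfold encP zp
      rw [Fin.append_right]
      by_cases h : z (π (finProdFinEquiv.symm c').1) = true
      · have hm : (finProdFinEquiv.symm c').1 ∈ (Finset.univ.filter fun i' => z (π i') = true) :=
          Finset.mem_filter.mpr ⟨Finset.mem_univ _, h⟩
        rw [if_pos hm, hu, h]
      · have hm : (finProdFinEquiv.symm c').1 ∉ (Finset.univ.filter fun i' => z (π i') = true) :=
          fun hh => h (Finset.mem_filter.mp hh).2
        rw [if_neg hm]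
        exact (Bool.eq_false_iff.mpr h).symm
    · left
      refine ⟨false, fun z => ?_⟩
      unfold encP zp
      rw [Fin.append_right]
      by_cases h : (finProdFinEquiv.symm c').1 ∈ (Finset.univ.filter fun i' => z (π i') = true)
      · rw [if_pos h]
        exact Bool.eq_false_iff.mpr hu
      · rw [if_neg h]

theorem TND_num (B N kk n a Q k v w : ℕ) (hk : kk = k + k * w) (hv : v ≤ B) (hQ : B + N + kk + n + a + 2 ≤ Q) :
    a * (k + v) ≤ Q ^ 10 ∧
    ((a * a * (k * 6 + 1 + 1) + 1) + ((a * (10 * (k + 1) ^ 2 + 1) + 1) + ((a * (k * 2 + 1 + 1) + 1) + (a * (B + (N + kk + v) + 1) + 1) + 1) + 1) + 1) ≤ Q ^ 10 := by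
  have hQ2 : 2 ≤ Q := by omega
  have haQ : a ≤ Q := by omega
  have hkk : k ≤ kk := by rw [hk]; omega
  have hkQ : k + 1 ≤ Q := by omega
  have h3 : 31 * Q ^ 3 ≤ Q ^ 10 := by
    have h7 : 2 ^ 7 ≤ Q ^ 7 := Nat.pow_le_pow_left hQ2 7
    calc 31 * Q ^ 3 ≤ Q ^ 7 * Q ^ 3 := Nat.mul_le_mul_right _ (by omega)
      _ = Q ^ 10 := by ring
  have hq1 : 1 ≤ Q ^ 3 := Nat.one_le_pow _ _ (by omega)
  have hq13 : Q ≤ Q ^ 3 := by
    calc Q = Q ^ 1 := (pow_one Q).symm
      _ ≤ Q ^ 3 := Nat.pow_le_pow_right (by omega) (by omega)
  have hq23 : Q ^ 2 ≤ Q ^ 3 := Nat.pow_le_pow_right (by omega) (by omega)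
  have e0 : a * (k + v) ≤ Q ^ 3 := by
    calc a * (k + v) ≤ Q * Q := Nat.mul_le_mul haQ (by omega)
      _ = Q ^ 2 := by ring
      _ ≤ Q ^ 3 := hq23
  have e1 : a * a * (k * 6 + 1 + 1) ≤ 8 * Q ^ 3 := by
    calc a * a * (k * 6 + 1 + 1) ≤ Q * Q * (8 * Q) := Nat.mul_le_mul (Nat.mul_le_mul haQ haQ) (by omega)
      _ = 8 * Q ^ 3 := by ring
  have e2 : a * (10 * (k + 1) ^ 2 + 1) ≤ 11 * Q ^ 3 := by
    have : (k + 1) ^ 2 ≤ Q ^ 2 := Nat.pow_le_pow_left hkQ 2
    have h1 : 1 ≤ Q ^ 2 := Nat.one_le_pow _ _ (by omega)
    calc a * (10 * (k + 1) ^ 2 + 1) ≤ Q * (11 * Q ^ 2) := Nat.mul_le_mul haQ (by omega)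
      _ = 11 * Q ^ 3 := by ring
  have e3 : a * (k * 2 + 1 + 1) ≤ 2 * Q ^ 3 := by
    calc a * (k * 2 + 1 + 1) ≤ Q * (2 * Q) := Nat.mul_le_mul haQ (by omega)
      _ = 2 * Q ^ 2 := by ring
      _ ≤ 2 * Q ^ 3 := by omega
  have e4 : a * (B + (N + kk + v) + 1) ≤ 2 * Q ^ 3 := by
    calc a * (B + (N + kk + v) + 1) ≤ Q * (2 * Q) := Nat.mul_le_mul haQ (by omega)
      _ = 2 * Q ^ 2 := by ring
      _ ≤ 2 * Q ^ 3 := by omega
  constructor
  · omega
  · omega

theorem TND_cntle {k : ℕ} (l a : ℕ) (S : Finset (Fin k)) (A : Finset (Fin k) → Prop) :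
    a ≤ cnt l S A ↔ ∃ P : Fin a → Finset (Fin k), Function.Injective P ∧ ∀ b, (P b).card = l ∧ P b ⊆ S ∧ A (P b) := by
  classical
  unfold cnt
  constructor
  · intro h
    obtain ⟨s, hs, hc⟩ := Finset.exists_subset_card_eq h
    let e : Fin a ≃ s := (Fintype.equivFinOfCardEq (by simp [hc])).symm
    refine ⟨fun b => (e b).1, fun b b' hb => e.injective (Subtype.ext hb), fun b => ?_⟩
    have hm := hs (e b).2
    rw [Finset.mem_filter, Finset.mem_powersetCard] at hm
    exact ⟨hm.1.2, hm.1.1, hm.2⟩
  · rintro ⟨P, hinj, hP⟩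
    have h1 : (Finset.univ.image P).card = a := by
      rw [Finset.card_image_of_injective _ hinj]
      simp
    rw [← h1]
    apply Finset.card_le_card
    intro T hT
    rw [Finset.mem_image] at hT
    obtain ⟨b, _, rfl⟩ := hT
    rw [Finset.mem_filter, Finset.mem_powersetCard]
    exact ⟨⟨(hP b).2.1, (hP b).1⟩, (hP b).2.2⟩

theorem TND (hCIR : ISO.CIR_stmt) (hCNT : ISO.CNT_stmt) (hSEL : ISO.SEL_stmt) : TND_stmt := by
  classical
  obtain ⟨hvar, hconst, hmono, hnot, hbin, hall, hex⟩ := hCIR
  intro n w k N l a B Q W S i X u F ⟨v, hv, g, hg, hgW⟩ hQ hF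
  obtain ⟨hV, hT⟩ := TND_num B N (k + k * w) n a Q k v w rfl hv hQ
  let pv : Fin a → Fin k → Fin (n + a * (k + v)) := fun b i' => Fin.natAdd n (finProdFinEquiv (b, Fin.castAdd v i'))
  let yv : Fin a → Fin v → Fin (n + a * (k + v)) := fun b c => Fin.natAdd n (finProdFinEquiv (b, Fin.natAdd k c))
  let Pz : Fin a → (Fin (n + a * (k + v)) → Bool) → Finset (Fin k) := fun b z => Finset.univ.filter fun i' => z (pv b i') = true
  let G1 : BF (n + a * (k + v)) := fun z => decide (∀ p : Fin a × Fin a, p.1 = p.2 ∨ ∃ i', z (pv p.1 i') ≠ z (pv p.2 i'))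
  let G2 : BF (n + a * (k + v)) := fun z => decide (∀ b : Fin a, (Pz b z).card = l)
  let G3 : BF (n + a * (k + v)) := fun z => decide (∀ b : Fin a, ∀ i', z (pv b i') = true → i' ∈ S)
  let H : Fin a → BF (n + a * (k + v)) := fun b z =>
    g (Fin.append (Fin.append (enc N (Function.update X i (fun j => z (Fin.castAdd (a * (k + v)) j)))) (encP (Pz b z) (zp (Pz b z) u)))
      (fun c => z (yv b c)))
  let G4 : BF (n + a * (k + v)) := fun z => decide (∀ b : Fin a, H b z = true)
  have s1 : Size std G1 (a * a * (k * 6 + 1 + 1) + 1) := by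
    have h1 : ∀ p : Fin a × Fin a, Size std (fun z : Fin (n + a * (k + v)) → Bool => decide (p.1 = p.2 ∨ ∃ i', z (pv p.1 i') ≠ z (pv p.2 i'))) (k * 6 + 1) := by
      intro p
      by_cases hp : p.1 = p.2
      · have : (fun z : Fin (n + a * (k + v)) → Bool => decide (p.1 = p.2 ∨ ∃ i', z (pv p.1 i') ≠ z (pv p.2 i'))) = fun _ => true := by
          funext z
          simp [hp]
        rw [this]
        exact hmono _ _ _ _ (hconst _ true) (by omega)
      · have h2 := hex (Fin k) (n + a * (k + v)) 5 (fun i' z => (z (pv p.1 i') && !(z (pv p.2 i'))) || (!(z (pv p.1 i')) && z (pv p.2 i')))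
          (fun z => decide (p.1 = p.2 ∨ ∃ i', z (pv p.1 i') ≠ z (pv p.2 i')))
          (by
            intro i'
            have a1 := hvar (n + a * (k + v)) (pv p.1 i')
            have a2 := hvar (n + a * (k + v)) (pv p.2 i')
            have b1 := hnot _ _ _ a1
            have b2 := hnot _ _ _ a2
            have c1 := (hbin _ _ _ _ _ a1 b2).1
            have c2 := (hbin _ _ _ _ _ b1 a2).1
            exact (hbin _ _ _ _ _ c1 c2).2)
          (by
            intro z
            rw [decide_eq_true_eq]
            constructor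
            · rintro (h | ⟨i', hi'⟩)
              · exact absurd h hp
              · refine ⟨i', ?_⟩
                revert hi'
                cases z (pv p.1 i') <;> cases z (pv p.2 i') <;> simp
            · rintro ⟨i', hi'⟩
              right
              refine ⟨i', ?_⟩
              revert hi'
              cases z (pv p.1 i') <;> cases z (pv p.2 i') <;> simp)
        rw [Fintype.card_fin] at h2
        exact h2
    have h2 := hall (Fin a × Fin a) (n + a * (k + v)) (k * 6 + 1) _ G1 h1 (by
      intro z
      simp only [G1, decide_eq_true_eq])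
    rw [Fintype.card_prod, Fintype.card_fin] at h2
    exact h2
  have s2 : Size std G2 (a * (10 * (k + 1) ^ 2 + 1) + 1) := by
    have h1 : ∀ b : Fin a, Size std (fun z : Fin (n + a * (k + v)) → Bool => decide ((Pz b z).card = l)) (10 * (k + 1) ^ 2) := by
      intro b
      have h2 := hCNT (Fin k) (n + a * (k + v)) 0 (fun i' z => z (pv b i')) (fun z => decide ((Pz b z).card = l)) (fun c => c = l)
        (fun i' => hvar _ _) (by intro z; rw [decide_eq_true_eq])
      rw [Fintype.card_fin, Nat.mul_zero, Nat.zero_add] at h2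
      exact h2
    have h2 := hall (Fin a) (n + a * (k + v)) (10 * (k + 1) ^ 2) _ G2 h1 (by
      intro z
      simp only [G2, decide_eq_true_eq])
    rw [Fintype.card_fin] at h2
    exact h2
  have s3 : Size std G3 (a * (k * 2 + 1 + 1) + 1) := by
    have h1 : ∀ b : Fin a, Size std (fun z : Fin (n + a * (k + v)) → Bool => decide (∀ i', z (pv b i') = true → i' ∈ S)) (k * 2 + 1) := by
      intro b
      have h2 := hall (Fin k) (n + a * (k + v)) 1 (fun i' z => decide (z (pv b i') = true → i' ∈ S))
        (fun z => decide (∀ i', z (pv b i') = true → i' ∈ S))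
        (by
          intro i'
          by_cases hi' : i' ∈ S
          · have : (fun z : Fin (n + a * (k + v)) → Bool => decide (z (pv b i') = true → i' ∈ S)) = fun _ => true := by
              funext z
              simp [hi']
            rw [this]
            exact hconst _ true
          · have : (fun z : Fin (n + a * (k + v)) → Bool => decide (z (pv b i') = true → i' ∈ S)) = fun z => !(z (pv b i')) := by
              funext z
              simp [hi']
            rw [this]
            exact hnot _ _ _ (hvar _ _))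
        (by
          intro z
          simp only [decide_eq_true_eq])
      rw [Fintype.card_fin] at h2
      exact h2
    have h2 := hall (Fin a) (n + a * (k + v)) (k * 2 + 1) _ G3 h1 (by
      intro z
      simp only [G3, decide_eq_true_eq])
    rw [Fintype.card_fin] at h2
    exact h2
  have s4 : Size std G4 (a * (B + (N + (k + k * w) + v) + 1) + 1) := by
    have h1 : ∀ b : Fin a, Size std (H b) (B + (N + (k + k * w) + v)) := by
      intro b
      exact hSEL (n + a * (k + v)) (N + (k + k * w) + v) B g
        (fun c z => Fin.append (Fin.append (enc N (Function.update X i (fun j => z (Fin.castAdd (a * (k + v)) j)))) (encP (Pz b z) (zp (Pz b z) u)))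
          (fun c => z (yv b c)) c) hg (by
          intro c
          refine Fin.addCases (fun c1 => ?_) (fun c1 => ?_) c
          · refine Fin.addCases (fun c2 => ?_) (fun c2 => ?_) c1
            · rcases TND_enc (N := N) X i (fun j => Fin.castAdd (a * (k + v)) j) c2 with ⟨bb, hb⟩ | ⟨j, hj⟩
              · left
                refine ⟨bb, ?_⟩
                funext z
                rw [Fin.append_left, Fin.append_left]
                exact hb z
              · right
                refine ⟨j, ?_⟩
                funext z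
                rw [Fin.append_left, Fin.append_left]
                exact hj z
            · rcases TND_encP (fun i' => pv b i') u c2 with ⟨bb, hb⟩ | ⟨j, hj⟩
              · left
                refine ⟨bb, ?_⟩
                funext z
                rw [Fin.append_left, Fin.append_right]
                exact hb z
              · right
                refine ⟨j, ?_⟩
                funext z
                rw [Fin.append_left, Fin.append_right]
                exact hj z
          · right
            refine ⟨yv b c1, ?_⟩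
            funext z
            rw [Fin.append_right])
    have h2 := hall (Fin a) (n + a * (k + v)) (B + (N + (k + k * w) + v)) _ G4 h1 (by
      intro z
      simp only [G4, decide_eq_true_eq])
    rw [Fintype.card_fin] at h2
    exact h2
  have s := (hbin _ _ _ _ _ s1 (hbin _ _ _ _ _ s2 (hbin _ _ _ _ _ s3 s4).1).1).1
  refine ⟨a * (k + v), hV, _, hmono _ _ _ _ s hT, ?_⟩
  intro x
  rw [hF, TND_cntle]
  have hxz : ∀ Y : Fin (a * (k + v)) → Bool, (fun j => Fin.append x Y (Fin.castAdd (a * (k + v)) j)) = x := by
    intro Y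
    funext j
    rw [Fin.append_left]
  have hpz : ∀ (Y : Fin (a * (k + v)) → Bool) (b : Fin a) (i' : Fin k), Fin.append x Y (pv b i') = Y (finProdFinEquiv (b, Fin.castAdd v i')) := by
    intro Y b i'
    exact Fin.append_right _ _ _
  have hyz : ∀ (Y : Fin (a * (k + v)) → Bool) (b : Fin a) (c : Fin v), Fin.append x Y (yv b c) = Y (finProdFinEquiv (b, Fin.natAdd k c)) := by
    intro Y b c
    exact Fin.append_right _ _ _
  constructor
  · rintro ⟨P, hinj, hP⟩
    have hy : ∀ b, ∃ y : Fin v → Bool, g (Fin.append (Fin.append (enc N (Function.update X i x)) (encP (P b) (zp (P b) u))) y) = true :=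
      fun b => (hgW _).mp (hP b).2.2
    choose y hy using hy
    let Y : Fin (a * (k + v)) → Bool := fun c => Fin.append (fun i' => decide (i' ∈ P (finProdFinEquiv.symm c).1)) (y (finProdFinEquiv.symm c).1) (finProdFinEquiv.symm c).2
    have hY1 : ∀ b i', Y (finProdFinEquiv (b, Fin.castAdd v i')) = decide (i' ∈ P b) := by
      intro b i'
      simp only [Y, Equiv.symm_apply_apply]
      rw [Fin.append_left]
    have hY2 : ∀ b c, Y (finProdFinEquiv (b, Fin.natAdd k c)) = y b c := by
      intro b c
      simp only [Y, Equiv.symm_apply_apply]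
      rw [Fin.append_right]
    have hPz : ∀ b, Pz b (Fin.append x Y) = P b := by
      intro b
      ext i'
      simp only [Pz, Finset.mem_filter, Finset.mem_univ, true_and]
      rw [hpz, hY1, decide_eq_true_eq]
    refine ⟨Y, ?_⟩
    rw [Bool.and_eq_true, Bool.and_eq_true, Bool.and_eq_true]
    refine ⟨?_, ?_, ?_, ?_⟩
    · simp only [G1, decide_eq_true_eq]
      intro p
      by_cases hp : p.1 = p.2
      · exact Or.inl hp
      · right
        by_contra hne
        push Not at hne
        apply hp
        apply hinj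
        ext i'
        have := hne i'
        rw [hpz, hpz, hY1, hY1, decide_eq_decide] at this
        exact this
    · simp only [G2, decide_eq_true_eq]
      intro b
      rw [hPz]
      exact (hP b).1
    · simp only [G3, decide_eq_true_eq]
      intro b i' hi'
      rw [hpz, hY1, decide_eq_true_eq] at hi'
      exact (hP b).2.1 hi'
    · simp only [G4, decide_eq_true_eq]
      intro b
      simp only [H]
      rw [hxz, hPz]
      have : (fun c => Fin.append x Y (yv b c)) = y b := by
        funext c
        rw [hyz, hY2]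
      rw [this]
      exact hy b
  · rintro ⟨Y, hY⟩
    rw [Bool.and_eq_true, Bool.and_eq_true, Bool.and_eq_true] at hY
    obtain ⟨h1, h2, h3, h4⟩ := hY
    simp only [G1, decide_eq_true_eq] at h1
    simp only [G2, decide_eq_true_eq] at h2
    simp only [G3, decide_eq_true_eq] at h3
    simp only [G4, H, decide_eq_true_eq] at h4
    refine ⟨fun b => Pz b (Fin.append x Y), ?_, ?_⟩
    · intro b b' hb
      rcases h1 (b, b') with h | ⟨i', hi'⟩
      · exact h
      · exfalso
        apply hi'
        have := congrArg (fun s => i' ∈ s) hb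
        simp only [Pz, Finset.mem_filter, Finset.mem_univ, true_and, eq_iff_iff] at this
        rw [Bool.eq_iff_iff]
        exact this
    · intro b
      refine ⟨h2 b, ?_, ?_⟩
      · intro i' hi'
        simp only [Pz, Finset.mem_filter, Finset.mem_univ, true_and] at hi'
        exact h3 b i' hi'
      · rw [hgW]
        refine ⟨fun c => Fin.append x Y (yv b c), ?_⟩
        have := h4 b
        rw [hxz] at this
        exact this

end Pool.Agent.VVO
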