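import Pool.Agent.helper92.ISA.Asm
import Pool.Agent.helper53.VVO.NUM
import Pool.Agent.helper6.VVO.LEN
import Pool.Agent.helper34.VVO.UNS
import Pool.Agent.helper51.VVO.SVS
import Pool.Agent.helper25.VVO.PVT
import Pool.Agent.helper18.VVO.HYB
import Pool.Agent.helper23.VVO.AVG
import Pool.Agent.helper25.VVO.INQ
import Pool.Agent.helper25.VVO.HCD
import Pool.Agent.helper20.VVO.SWC
import Pool.Agent.helper20.VVO.ONE
import Pool.Agent.helper68.VVO.TDT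
import Pool.Agent.helper14.VVO.OND
import Pool.Agent.helper40.VVO.DPX
import Pool.Agent.helper20.VVO.TND
import Pool.Agent.helper53.VVO.NCL
import Pool.Agent.helper23.VVO.ONN
import Pool.Agent.helper61.VVO.NPX
import Pool.Agent.helper5.VVO.VVG
import Pool.Agent.helper68.VVO.VVN
import Pool.Agent.helper23.VVO.CHB
import Pool.Agent.helper94.VVO.TSM
import Pool.Agent.helper5.VVO.PBC
import Pool.Agent.helper16.VVO.LEV
import Pool.Agent.helper40.VVO.POI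
import Pool.Agent.helper23.VVO.GIN
import Pool.Agent.helper51.VVO.KEY
import Pool.Agent.helper78.VVO.PRS
import Pool.Agent.helper96.VVO.UPR
import Pool.Agent.helper39.VVO.UPX
import Pool.Agent.helper87.VVO.FNX

/-! Assembly of the project VVO (MP_069684_lc). -/

set_option autoImplicit false

namespace Pool.Agent.VVO.Asm

theorem vNUM : Pool.Agent.VVO.NUM_stmt := Pool.Agent.VVO.NUM 
theorem vLEN : Pool.Agent.VVO.LEN_stmt := Pool.Agent.VVO.LEN Pool.Agent.ISA.Asm.aDNQ Pool.Agent.ISA.Asm.oLIM Pool.Agent.ISA.Asm.aTRN Pool.Agent.ISA.Asm.aTHA vNUM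
theorem vUNS : Pool.Agent.VVO.UNS_stmt := Pool.Agent.VVO.UNS Pool.Agent.ISA.Asm.oCIR
theorem vSVS : Pool.Agent.VVO.SVS_stmt := Pool.Agent.VVO.SVS Pool.Agent.ISA.Asm.oCIR Pool.Agent.ISA.Asm.oCNT Pool.Agent.ISA.Asm.oSEL
theorem vPVT : Pool.Agent.VVO.PVT_stmt := Pool.Agent.VVO.PVT 
theorem vHYB : Pool.Agent.VVO.HYB_stmt := Pool.Agent.VVO.HYB 
theorem vAVG : Pool.Agent.VVO.AVG_stmt := Pool.Agent.VVO.AVG 
theorem vINQ : Pool.Agent.VVO.INQ_stmt := Pool.Agent.VVO.INQ vPVT vHYB vAVG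
theorem vHCD : Pool.Agent.VVO.HCD_stmt := Pool.Agent.VVO.HCD Pool.Agent.ISA.Asm.oPTL
theorem vSWC : Pool.Agent.VVO.SWC_stmt := Pool.Agent.VVO.SWC 
theorem vONE : Pool.Agent.VVO.ONE_stmt := Pool.Agent.VVO.ONE vINQ vHCD vSWC
theorem vTDT : Pool.Agent.VVO.TDT_stmt := Pool.Agent.VVO.TDT Pool.Agent.ISA.Asm.oCIR Pool.Agent.ISA.Asm.oCNT Pool.Agent.ISA.Asm.oSEL
theorem vOND : Pool.Agent.VVO.OND_stmt := Pool.Agent.VVO.OND vONE vTDT Pool.Agent.ISA.Asm.oCIR Pool.Agent.ISA.Asm.oCNT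
theorem vDPX : Pool.Agent.VVO.DPX_stmt := Pool.Agent.VVO.DPX vLEN vUNS Pool.Agent.ISA.Asm.oLVS Pool.Agent.ISA.Asm.aCOR vSVS vOND Pool.Agent.PB.pDNF
theorem vTND : Pool.Agent.VVO.TND_stmt := Pool.Agent.VVO.TND Pool.Agent.ISA.Asm.oCIR Pool.Agent.ISA.Asm.oCNT Pool.Agent.ISA.Asm.oSEL
theorem vNCL : Pool.Agent.VVO.NCL_stmt := Pool.Agent.VVO.NCL Pool.Agent.ISA.Asm.oCIR Pool.Agent.ISA.Asm.oCNT Pool.Agent.ISA.Asm.oSEL
theorem vONN : Pool.Agent.VVO.ONN_stmt := Pool.Agent.VVO.ONN vONE vTND vNCL Pool.Agent.ISA.Asm.oCIR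
theorem vNPX : Pool.Agent.VVO.NPX_stmt := Pool.Agent.VVO.NPX vLEN vUNS Pool.Agent.ISA.Asm.oLVS Pool.Agent.ISA.Asm.aCOR vSVS vONN vNCL Pool.Agent.ISA.Asm.oCIR
theorem vVVG : Pool.Agent.VVO.VVG_stmt := Pool.Agent.VVO.VVG Pool.Agent.ISA.Asm.oCIR Pool.Agent.ISA.Asm.oVVL Pool.Agent.ISA.Asm.oIPS
theorem vVVN : Pool.Agent.VVO.VVN_stmt := Pool.Agent.VVO.VVN Pool.Agent.ISA.Asm.oCIR Pool.Agent.ISA.Asm.oVVL Pool.Agent.ISA.Asm.oIPS vNCL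
theorem vCHB : Pool.Agent.VVO.CHB_stmt := Pool.Agent.VVO.CHB Pool.Agent.ISA.Asm.oIPC
theorem vTSM : Pool.Agent.VVO.TSM_stmt := Pool.Agent.VVO.TSM Pool.Agent.ISA.Asm.oHIN Pool.Agent.ISA.Asm.oPRM
theorem vPBC : Pool.Agent.VVO.PBC_stmt := Pool.Agent.VVO.PBC 
theorem vLEV : Pool.Agent.VVO.LEV_stmt := Pool.Agent.VVO.LEV vCHB vTSM vPBC
theorem vPOI : Pool.Agent.VVO.POI_stmt := Pool.Agent.VVO.POI 
theorem vGIN : Pool.Agent.VVO.GIN_stmt := Pool.Agent.VVO.GIN Pool.Agent.ISA.Asm.oBET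
theorem vKEY : Pool.Agent.VVO.KEY_stmt := Pool.Agent.VVO.KEY vLEV vPOI vGIN vTSM
theorem vPRS : Pool.Agent.VVO.PRS_stmt := Pool.Agent.VVO.PRS Pool.Agent.ISA.Asm.oCIR Pool.Agent.ISA.Asm.oIPS Pool.Agent.ISA.Asm.oTBS
theorem vUPR : Pool.Agent.VVO.UPR_stmt := Pool.Agent.VVO.UPR vKEY vPRS Pool.Agent.ISA.Asm.oPTL Pool.Agent.ISA.Asm.oCIR
theorem vUPX : Pool.Agent.VVO.UPX_stmt := Pool.Agent.VVO.UPX vUPR Pool.Agent.ISA.Asm.aPB2 Pool.Agent.ISA.Asm.aTHA Pool.Agent.ISA.Asm.aTRN Pool.Agent.ISA.Asm.oLIM Pool.Agent.ISA.Asm.oCIR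
theorem vFNX : Pool.Agent.VVO.FNX_stmt := Pool.Agent.VVO.FNX vDPX vNPX vVVG vVVN Pool.Agent.ISA.Asm.oVVA Pool.Agent.ISA.Asm.aLEX vUPX Pool.Agent.ISA.Asm.oTWO Pool.Agent.ISA.Asm.oLIM Pool.Agent.ISA.Asm.aTRN Pool.Agent.ISA.Asm.aTHA Pool.Agent.ISA.Asm.oCIR

end Pool.Agent.VVO.Asm
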