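import Pool.Agent.helper92.ISA.Defs

/-!
# MP_069684 (P/Poly versus NP/Poly): isolation of witnesses, all numbers of witnesses: definitions
-/

set_option autoImplicit false

namespace Pool.Agent.VVO

open Pool.Agent.PB Pool.Agent.ISO Pool.Agent.ISA

/-- `f` is computed by a nondeterministic circuit with at most `s` gates and at most `s` guessed bits. -/
def NSize {n : ℕ} (f : BF n) (s : ℕ) : Prop :=
  ∃ v : ℕ, v ≤ s ∧ ∃ g : BF (n + v), Size std g s ∧ ∀ x : Fin n → Bool, f x = true ↔ ∃ y : Fin v → Bool, g (Fin.append x y) = true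

open Classical in
/-- Pruning of witnesses (as `ISA.Prun`), but the verifiers `W i` are nondeterministic circuits. -/
def PrunN {n w : ℕ} (m : ℕ) (A : Set ℕ) (p : ℝ) (B : ℕ) (f : BF (n + w)) : Prop :=
  ∃ (k : ℕ) (W : Fin k → BF (n + w)), 1 ≤ k ∧ k ≤ B ∧ (∀ i, NSize (W i) B) ∧
    (∀ i z, W i z = true → f z = true) ∧
    ∀ x, 1 ≤ wit f x → wit f x ≤ m → p * k ≤ ((Finset.univ.filter fun i => wit (W i) x ∈ A).card : ℝ)

/-- All (deterministic) verifiers of polynomial size can be pruned by nondeterministic circuits of polynomial size. -/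
def AllPrunN (m : ℕ → ℕ) (A : ℕ → Set ℕ) (p : ℕ → ℝ) : Prop :=
  ∀ (w : ℕ → ℕ) (V : ∀ n, BF (n + w n)) (c : ℕ), (∀ n, w n ≤ n ^ c + c ∧ Size std (V n) (n ^ c + c)) →
    ∃ c' : ℕ, ∀ n, PrunN (m n) (A n) (p n) (n ^ c' + c') (V n)

end Pool.Agent.VVO
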