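import Pool.Agent.helper92.ISA.Defs

/-!
# MP_069684 (P/Poly versus NP/Poly): isolation of witnesses, all numbers of witnesses: definitions, short witnesses
-/

set_option autoImplicit false

namespace Pool.Agent.VVO

open Pool.Agent.PB Pool.Agent.ISO Pool.Agent.ISA

/-- All verifiers of polynomial size whose witnesses are not longer than the input can be pruned in polynomial size (as
`ISA.AllPrun`, with the restriction `w n ≤ n` on the length of the witnesses). -/
def AllPrunS (m : ℕ → ℕ) (A : ℕ → Set ℕ) (p : ℕ → ℝ) : Prop :=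
  ∀ (w : ℕ → ℕ) (V : ∀ n, BF (n + w n)) (c : ℕ), (∀ n, w n ≤ n ∧ Size std (V n) (n ^ c + c)) →
    ∃ c' : ℕ, ∀ n, Prun (m n) (A n) (p n) (n ^ c' + c') (V n)

end Pool.Agent.VVO
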