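import Pool.Agent.helper92.ISA.Spec2
import Pool.Agent.helper20.VVO.Defs

/-!
# Project vvo (MP_069684_lc): Valiant-Vazirani is optimal, the critical isolation probability is `1 / ln m` for all `m`

Paper: /team-store/H9_MP_069684_lc_helper20.md. Calculus of circuits and older rows: projects ISO / ISA of helper92 (`Pool/Agent/helper92/ISO/SpecG.lean`, `SpecC.lean`, `ISA/Spec.lean`; all of them are PROVED, see `Pool/Agent/helper92/ISA/Asm.lean`;
in the rows below they appear as hypotheses).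

RULES. Row `vvo:XXX`: exact line in its lock note, file `Pool/Agent/<seat>/VVO/XXX.lean`:

  import Pool.Agent.helper20.VVO.Spec
  set_option autoImplicit false
  open Filter Topology
  namespace Pool.Agent.VVO
  open Pool.Agent.PB Pool.Agent.ISO Pool.Agent.ISA

(names which exist in several of these namespaces are written in full, e.g. `ISO.CIR_stmt`). Other rows only as hypotheses; more `_stmt` hypotheses may be added (no circles), unused ones may be dropped. Auxiliary lemmas prefixed `XXX_`. No `convert`, `congr!`,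
`native_decide`, no straight double quotes, no sorry. Never change this file; wrong or unclear statement: one line to helper20.

IDEA. `k` blocks, each with one witness (`i ∈ S`) or none (`i ∉ S`); the witnesses of the whole input are the `l`-subsets `P ⊆ S` with the witnesses of their blocks: `C(|S|, l)` of them. Let a pruner keep `X(S)` of them. `r (g(r) - g(r-1)) ≥ l U(r)`, `g(r)` = probability of `X ≥ 1` for `|S| = r`, `U(r)` =
probability of `X = 1`, because all `l` points of the only surviving `P` are pivotal; here `g(S - i) ≤ Pr_S[some P without i survives]` is the one-sided inequality of nondeterministic circuits which cannot distinguish blocks with one witness and blocks without witness. So `∑_(r=l..k) (l/r) U(r) ≤ 1`.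
-/

set_option autoImplicit false

open Filter Topology

namespace Pool.Agent.VVO

open Pool.Agent.PB Pool.Agent.ISO Pool.Agent.ISA

/-! ## Block A: the combinatorial inequality (pure) -/

open Classical in
/-- the indicator -/
noncomputable def ind (P : Prop) : ℝ := if P then 1 else 0

open Classical in
/-- the number of the `l`-element subsets of `S` with the property `A` -/
noncomputable def cnt {k : ℕ} (l : ℕ) (S : Finset (Fin k)) (A : Finset (Fin k) → Prop) : ℕ := ((S.powersetCard l).filter A).card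

/-- the weight of `X` if the blocks in `S` have the weights `Dy` and the other blocks the weights `Dn` -/
noncomputable def DS {α : Type} {k : ℕ} (Dy Dn : α → ℝ) (S : Finset (Fin k)) (X : Fin k → α) : ℝ :=
  ∏ i, if i ∈ S then Dy (X i) else Dn (X i)

/-- **PVT** (short/medium; pure). `X = cnt l S A`, `X_i` = the number of the counted `P` with `i ∈ P`: `cnt l (S.erase i) A = X - X_i`, `∑_(i ∈ S) X_i = l X` (double counting, `|P| = l`). Every term `∑_a (1/a) ([a ≤ X] - [a ≤ X - X_i])` is `≥ 0`, and for `1 ≤ X ≤ j` it is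
`∑_(X - X_i < a ≤ X) 1/a ≥ X_i / X`. -/
def PVT_stmt : Prop := ∀ (k l j : ℕ) (S : Finset (Fin k)) (A : Finset (Fin k) → Prop),
  (l : ℝ) * ind (1 ≤ cnt l S A ∧ cnt l S A ≤ j) ≤
    ∑ a ∈ Finset.Icc 1 j, (1 / (a : ℝ)) * ∑ i ∈ S, (ind (a ≤ cnt l S A) - ind (a ≤ cnt l (S.erase i) A))

/-- **HYB** (short/medium; pure). The sums over `X` factor: `X` = (values outside `i`, value at `i`) (`Fintype.sum_equiv`, `Function.update`; e.g. average `φ` over the value at `i`: `∑_X DS .. X φ X = ∑_X DS .. X (∑_x D x φ (update X i x))`, `D` = the weight at `i`, of sum `1`). Last part: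
`Finset.prod_univ_sum` / `Finset.prod_sum`. -/
def HYB_stmt : Prop := ∀ (α : Type) [Fintype α] (Dy Dn : α → ℝ) (k : ℕ) (S : Finset (Fin k)),
  (∀ x, 0 ≤ Dy x) → ∑ x, Dy x = 1 → (∀ x, 0 ≤ Dn x) → ∑ x, Dn x = 1 →
  (∀ X, 0 ≤ DS Dy Dn S X) ∧ ∑ X, DS Dy Dn S X = 1 ∧
  ∀ (i : Fin k) (φ : (Fin k → α) → ℝ) (η : ℝ), i ∈ S →
    (∀ X, ∑ x, Dn x * φ (Function.update X i x) ≤ ∑ x, Dy x * φ (Function.update X i x) + η) →
    ∑ X, DS Dy Dn (S.erase i) X * φ X ≤ ∑ X, DS Dy Dn S X * φ X + η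

/-- **AVG** (short/medium; pure). `Γ(r)` = average of `G` over the sets of size `r` (sum divided by `C(k,r)`). `∑_(|S|=r) ∑_(i ∈ S) G(S - i) = (k-r+1) ∑_(|S'|=r-1) G(S')` (double counting, pairs `(S', i)`, `i ∉ S'`) and `(k-r+1)/C(k,r) = r/C(k,r-1)`; so `l · avg_r U ≤ r (Γ(r) - Γ(r-1)) + r η`;
divide by `r` and sum over `r = l..k`: `≤ Γ(k) - Γ(l-1) + (k-l+1) η`. -/
def AVG_stmt : Prop := ∀ (k l : ℕ) (U G : Finset (Fin k) → ℝ) (H η : ℝ), 1 ≤ l → l ≤ k → 0 ≤ η → (∀ S, 0 ≤ G S ∧ G S ≤ H) →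
  (∀ S : Finset (Fin k), (l : ℝ) * U S ≤ ∑ i ∈ S, (G S - G (S.erase i)) + S.card * η) →
  ∑ r ∈ Finset.Icc l k, ((l : ℝ) / r) * ((∑ S ∈ (Finset.univ : Finset (Fin k)).powersetCard r, U S) / (k.choose r : ℝ)) ≤ H + k * η

/-- **INQ** (short/medium; from PVT, HYB, AVG). For every `t`: `U S = ∑_X DS S X ind (1 ≤ cnt ≤ j)`, `G S = ∑_(a=1..j) (1/a) g_a(S)`, `g_a(S) = ∑_X DS S X ind (a ≤ cnt l S (acc t X))`, `0 ≤ G ≤ H_j`. PVT (multiplied by `DS S X`, summed over `X`) and HYB with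
`φ X = ind (a ≤ cnt l (S.erase i) (acc t X))` give the hypothesis of AVG with `H_j η`. Sum over `t` and divide by `q`: for `|S| = r ≥ l` the average over `t` of `U S` is `≥ p` (last hypothesis; if some factor of `DS S X` is zero the weight is zero). -/
def INQ_stmt : Prop := ∀ (α : Type) [Fintype α] (Dy Dn : α → ℝ) (k l j q : ℕ) (acc : Fin q → (Fin k → α) → Finset (Fin k) → Prop) (η p : ℝ),
  1 ≤ l → l ≤ k → 1 ≤ q → 0 ≤ η →
  (∀ x, 0 ≤ Dy x) → ∑ x, Dy x = 1 → (∀ x, 0 ≤ Dn x) → ∑ x, Dn x = 1 →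
  (∀ (t : Fin q) (S : Finset (Fin k)) (i : Fin k) (X : Fin k → α) (a : ℕ), i ∈ S → 1 ≤ a → a ≤ j →
    ∑ x, Dn x * ind (a ≤ cnt l (S.erase i) (acc t (Function.update X i x))) ≤
      ∑ x, Dy x * ind (a ≤ cnt l (S.erase i) (acc t (Function.update X i x))) + η) →
  (∀ (S : Finset (Fin k)) (X : Fin k → α), l ≤ S.card → (∀ i ∈ S, Dy (X i) ≠ 0) → (∀ i, i ∉ S → Dn (X i) ≠ 0) →
    p * q ≤ ∑ t, ind (1 ≤ cnt l S (acc t X) ∧ cnt l S (acc t X) ≤ j)) →
  p * ∑ r ∈ Finset.Icc l k, (l : ℝ) / (r : ℝ) ≤ (harmonic j : ℝ) * (1 + k * η)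

/-- **NUM** (short/medium; pure). Large `m`: `ρ' ≥ 2` natural with `ln ρ' ≥ 2/ε`, `l = ⌊ln m / (1 + ln ρ')⌋`, `k = ρ' l`. `C(k,l) ≤ k^l / l!` (`Nat.choose_le_pow_div`), `l^l / l! ≤ e^l` (`Real.pow_div_factorial_le_exp`), so `C(k,l) ≤ (e ρ')^l ≤ m`.
`∑_(r=l..k) 1/r ≥ ln((k+1)/l) ≥ ln ρ'`, so the sum is `≥ l ln ρ' ≥ (ln m / (1 + ln ρ') - 1) ln ρ' ≥ (1 - ε/2) ln m - ln ρ'`. For `m < M0`: `l = 1`, `k = m`, the sum is `H_m ≥ ln m`; `ρ ≥ M0 / ln 2`. (`ε ≥ 1`: `k = l = 1`, or use `ε = 1/2`.) -/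
def NUM_stmt : Prop := ∀ ε : ℝ, 0 < ε → ∃ ρ : ℕ, ∀ m : ℕ, 2 ≤ m → ∃ k l : ℕ, 1 ≤ l ∧ l ≤ k ∧ k.choose l ≤ m ∧
  (k : ℝ) ≤ ρ * Real.log m ∧ (1 - ε) * Real.log m ≤ ∑ r ∈ Finset.Icc l k, (l : ℝ) / (r : ℝ)

/-! ## Block B: hard distributions (pure) -/

open Classical in
/-- **HCD** (medium; from ISO.PTL). A class `𝒞` of tests either has a list whose majority separates `yes` and `no`, or there are distributions on `yes`, `no` such that no test of `𝒞` is more likely on `no` by more than `4 γ`. Suppose that the second alternative is false. Let `μ` be a distribution on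
`U = {a // yes a ∨ no a}` (if `U` is empty the first alternative holds with any list from `𝒞`). Some `C ∈ 𝒞` is correct (`C a = true` if `no a`, `C a = false` if `yes a`) with probability `≥ 1/2 + γ`: if `μ(no) ≥ 1/2 + γ` or `μ(yes) ≥ 1/2 + γ` a constant; otherwise `μ(no) = 1/2 + δ`, `|δ| < γ`; take
the conditional distributions and `C` with `Pn - Py > 4 γ`: the probability is `μ(no) Pn + μ(yes) (1 - Py) = (Pn + 1 - Py)/2 + δ (Pn - 1 + Py) ≥ 1/2 + 2 γ - γ`. PTL with `hit C a` = [correct], `ι = 𝒞`, `q = 1/2 + γ`, `lam = γ`: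
all `a ∈ U` have at least `(1 - γ)(1/2 + γ) K - ln|U|/γ ≥ (1/2 + γ/4) K - ln|α|/γ > K/2` correct tests. -/
def HCD_stmt : Prop := ∀ (α : Type) [Fintype α] (yes no : α → Prop) (𝒞 : Set (α → Bool)) (γ : ℝ) (K : ℕ),
  (∀ a, ¬ (yes a ∧ no a)) → (∀ b : Bool, (fun _ => b) ∈ 𝒞) → 0 < γ → γ ≤ 1 / 4 → 4 * Real.log (Fintype.card α) < γ ^ 2 * K →
  (∃ L : Fin K → α → Bool, (∀ t, L t ∈ 𝒞) ∧ (∀ a, yes a → 2 * (Finset.univ.filter fun t => L t a = true).card < K) ∧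
    ∀ a, no a → K < 2 * (Finset.univ.filter fun t => L t a = true).card) ∨
  ∃ Dy Dn : α → ℝ, (∀ a, 0 ≤ Dy a) ∧ ∑ a, Dy a = 1 ∧ (∀ a, Dy a ≠ 0 → yes a) ∧
    (∀ a, 0 ≤ Dn a) ∧ ∑ a, Dn a = 1 ∧ (∀ a, Dn a ≠ 0 → no a) ∧
    ∀ C ∈ 𝒞, ∑ a, Dn a * ind (C a = true) ≤ ∑ a, Dy a * ind (C a = true) + 4 * γ

/-! ## Block C: the subset verifier -/

/-- the witness (set `P`, witnesses `z i` of the blocks) -/
def encP {k w : ℕ} (P : Finset (Fin k)) (z : Fin k → Fin w → Bool) : Fin (k + k * w) → Bool :=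
  Fin.append (fun i => decide (i ∈ P)) fun i => z (finProdFinEquiv.symm i).1 (finProdFinEquiv.symm i).2

/-- the witnesses of the blocks: `u i` for `i ∈ P`, zero otherwise -/
def zp {k w : ℕ} (P : Finset (Fin k)) (u : Fin k → Fin w → Bool) : Fin k → Fin w → Bool :=
  fun i => if i ∈ P then u i else fun _ => false

/-- The subset verifier: the input consists of `k` inputs `x_i` of `f`, the witness of a set `P` with `l` elements and `k` words `z_i`; `z_i` is a witness of `x_i` for `i ∈ P` and zero for `i ∉ P`. -/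
def subV {n w : ℕ} (f : BF (n + w)) {k : ℕ} (N l : ℕ) (h : k * n ≤ N) : BF (N + (k + k * w)) := fun Z =>
  decide ((Finset.univ.filter fun i : Fin k => Z (Fin.natAdd N (Fin.castAdd (k * w) i)) = true).card = l ∧
    ∀ i : Fin k, (Z (Fin.natAdd N (Fin.castAdd (k * w) i)) = false ∧
        ∀ b : Fin w, Z (Fin.natAdd N (Fin.natAdd k (finProdFinEquiv (i, b)))) = false) ∨
      (Z (Fin.natAdd N (Fin.castAdd (k * w) i)) = true ∧
        f (Fin.append (fun b : Fin n => Z (Fin.castAdd (k + k * w) (Fin.castLE h (finProdFinEquiv (i, b)))))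
          (fun b : Fin w => Z (Fin.natAdd N (Fin.natAdd k (finProdFinEquiv (i, b)))))) = true))

/-- **SVS** (size; short/medium; from ISO.CIR, ISO.CNT, ISO.SEL; compare `Pool/Agent/helper14/ISO/LVS.lean`). CNT for the number of the ones among the first `k` bits of the witness, a conjunction over `i` of a disjunction of two conjunctions (`1 + w` negated variables; a variable and a copy of `f` with other variables). -/
def SVS_stmt : Prop := ∀ (n w k N l s Q : ℕ) (f : BF (n + w)) (h : k * n ≤ N), Size std f s →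
  n + w + k + N + s + 2 ≤ Q → Size std (subV f N l h) (Q ^ 8)

/-- **SWC** (medium; pure; compare `Pool/Agent/helper59/ISO/LVW.lean`, `Pool/Agent/helper90/ISO/WTC.lean`). `subV f N l h (append (enc N X) Y)` holds iff `Y = encP P z` with `|P| = l` and for all `i`: `z i` is a witness of `X i` if `i ∈ P`, zero if `i ∉ P`. So the witnesses of `enc N X` are exactly the `encP P (zp P u)`,
`P ⊆ S`, `|P| = l` (`i ∈ P` forces `i ∈ S` and `z i = u i`), and `P ↦ encP P (zp P u)` is injective. -/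
def SWC_stmt : Prop := ∀ (n w k N l : ℕ) (f : BF (n + w)) (h : k * n ≤ N) (X : Fin k → Fin n → Bool) (S : Finset (Fin k))
  (u : Fin k → Fin w → Bool), (∀ i ∈ S, ∀ y, f (Fin.append (X i) y) = true ↔ y = u i) →
  (∀ i, i ∉ S → ∀ y, f (Fin.append (X i) y) = false) →
    wit (subV f N l h) (enc N X) = S.card.choose l ∧
    ∀ W : BF (N + (k + k * w)), (∀ z, W z = true → subV f N l h z = true) →
      wit W (enc N X) = cnt l S (fun P => W (Fin.append (enc N X) (encP P (zp P u))) = true)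

/-- **ONE** (medium; from INQ, HCD, SWC). One input length. `yes x` = exactly one witness (`wit f x = 1`), `no x` = none; `uw x` = the witness (choice; arbitrary if there is not exactly one). HCD: otherwise there are `Dy`, `Dn` with the inequality for all tests in `𝒞`. Then INQ with `η = 4 γ` and
`acc t X P := W t (append (enc N X) (encP P (zp P (uw ∘ X)))) = true` contradicts the last hypothesis: for `P ⊆ S.erase i` the words `zp P (uw ∘ update X i x)` do not depend on `x`, so `x ↦ [a ≤ cnt l (S.erase i) (acc t (update X i x))]` is in `𝒞`; the hypothesis on `p` of INQ: SWC for `X`, `S`, `u = uw ∘ X`, as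
`1 ≤ C(|S|,l) ≤ C(k,l) ≤ m` for `l ≤ |S|`, and `wit (W t) (enc N X) = cnt l S (acc t X)`. -/
def ONE_stmt : Prop := ∀ (n w N k l j m q K : ℕ) (p γ : ℝ) (f : BF (n + w)) (h : k * n ≤ N) (W : Fin q → BF (N + (k + k * w)))
  (𝒞 : Set (BF n)), 1 ≤ l → l ≤ k → k.choose l ≤ m → 1 ≤ q →
  (∀ t z, W t z = true → subV f N l h z = true) →
  (∀ x, 1 ≤ wit (subV f N l h) x → wit (subV f N l h) x ≤ m → p * q ≤ ∑ t, ind (1 ≤ wit (W t) x ∧ wit (W t) x ≤ j)) →
  (∀ b : Bool, (fun _ => b) ∈ 𝒞) →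
  (∀ (t : Fin q) (S : Finset (Fin k)) (i : Fin k) (X : Fin k → Fin n → Bool) (u : Fin k → Fin w → Bool) (a : ℕ) (F : BF n), 1 ≤ a → a ≤ j →
    (∀ x, F x = true ↔ a ≤ cnt l S (fun P => W t (Fin.append (enc N (Function.update X i x)) (encP P (zp P u))) = true)) → F ∈ 𝒞) →
  0 < γ → γ ≤ 1 / 4 → 4 * (n * Real.log 2) < γ ^ 2 * K →
  (harmonic j : ℝ) * (1 + k * (4 * γ)) < p * ∑ r ∈ Finset.Icc l k, (l : ℝ) / (r : ℝ) →
    ∃ L : Fin K → BF n, (∀ t, L t ∈ 𝒞) ∧ (∀ x, wit f x = 1 → 2 * (Finset.univ.filter fun t => L t x = true).card < K) ∧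
      ∀ x, wit f x = 0 → K < 2 * (Finset.univ.filter fun t => L t x = true).card

/-! ## Block D: circuits -/

/-- **NCL** (nondeterministic circuits; medium; from ISO.CIR, ISO.CNT, ISO.SEL). (1) `v = 0`. (2) clear. (3) Guess the guessed words of all `K` circuits: `K s` bits (circuit `t` uses the first `v_t ≤ s` bits of block `t`); SEL and CNT; the number of accepting `t` is monotone in the guesses. (4) The conjunction: (3) for `K = 2 = τ`,
or directly. -/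
def NCL_stmt : Prop :=
  (∀ (n s : ℕ) (f : BF n), Size std f s → NSize f s) ∧
  (∀ (n s t : ℕ) (f : BF n), NSize f s → s ≤ t → NSize f t) ∧
  (∀ (n s K τ : ℕ) (L : Fin K → BF n) (F : BF n), (∀ t, NSize (L t) s) →
    (∀ x, F x = true ↔ τ ≤ (Finset.univ.filter fun t => L t x = true).card) → NSize F (K * (2 * s + n + 1) + 10 * (K + 1) ^ 2)) ∧
  ∀ (n s : ℕ) (f g F : BF n), NSize f s → NSize g s → (∀ x, F x = true ↔ f x = true ∧ g x = true) → NSize F (5 * (s + n + 5))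

/-- **TND** (the test, nondeterministic; medium; from ISO.CIR, ISO.CNT, ISO.SEL). Guess `a` different sets `P_b` (`k` bits each) and the guessed words of `W` for each of them (`v ≤ B` bits each): pairwise different, `|P_b| = l` (CNT), `P_b ⊆ S`, and the circuit of `W` with its variables replaced by variables and constants (SEL): every bit of
`enc N (update X i x)` is a constant or a variable of `x`, every bit of `encP P (zp P u)` is a constant or a bit of `P`. (`a = 0`: constant.) Any bound is fine. -/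
def TND_stmt : Prop := ∀ (n w k N l a B Q : ℕ) (W : BF (N + (k + k * w))) (S : Finset (Fin k)) (i : Fin k) (X : Fin k → Fin n → Bool)
  (u : Fin k → Fin w → Bool) (F : BF n), NSize W B → B + N + (k + k * w) + n + a + 2 ≤ Q →
  (∀ x, F x = true ↔ a ≤ cnt l S (fun P => W (Fin.append (enc N (Function.update X i x)) (encP P (zp P u))) = true)) → NSize F (Q ^ 10)

/-- **TDT** (the test, deterministic; short/medium; from ISO.CNT, ISO.SEL; compare `Pool/Agent/helper50/ISA/TSZ.lean`). CNT with `ι` = the `l`-subsets of `S` (at most `C(k,l)`), each function is `W` with constants and variables substituted (SEL). -/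
def TDT_stmt : Prop := ∀ (n w k N l a B Q : ℕ) (W : BF (N + (k + k * w))) (S : Finset (Fin k)) (i : Fin k) (X : Fin k → Fin n → Bool)
  (u : Fin k → Fin w → Bool) (F : BF n), Size std W B → B + N + (k + k * w) + k.choose l + 2 ≤ Q →
  (∀ x, F x = true ↔ a ≤ cnt l S (fun P => W (Fin.append (enc N (Function.update X i x)) (encP P (zp P u))) = true)) → Size std F (Q ^ 10)

/-- **ONN** (one length, nondeterministic; short/medium; from ONE, TND, NCL, ISO.CIR). ONE with `𝒞 = {F | NSize F (Q ^ 10)}`, `γ = 1/G`, `K = 4 n G² + 1` (`4 n ln 2 < 4 n + 1/G²`); `D x` = [`K < 2 #{t : L t x}`], NCL (3) with `τ = K/2 + 1`, `K ≤ Q^5`. -/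
def ONN_stmt : Prop := ∀ (n w N k l j m B G Q : ℕ) (p : ℝ) (f : BF (n + w)) (h : k * n ≤ N), 1 ≤ l → l ≤ k → k.choose l ≤ m → 4 ≤ G →
  PrunN m (Set.Icc 1 j) p B (subV f N l h) →
  (harmonic j : ℝ) * (1 + 4 * k / G) < p * ∑ r ∈ Finset.Icc l k, (l : ℝ) / (r : ℝ) → B + N + (k + k * w) + n + j + G + 2 ≤ Q →
    ∃ D : BF n, NSize D (Q ^ 30) ∧ (∀ x, wit f x = 1 → D x = false) ∧ ∀ x, wit f x = 0 → D x = true

/-- **OND** (one length, deterministic; short/medium; from ONE, TDT, ISO.CIR, ISO.CNT). As ONN with `𝒞 = {F | Size std F (Q ^ 10)}`; the result is negated (CIR). -/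
def OND_stmt : Prop := ∀ (n w N k l j m B G Q : ℕ) (p : ℝ) (f : BF (n + w)) (h : k * n ≤ N), 1 ≤ l → l ≤ k → k.choose l ≤ m → 4 ≤ G →
  Prun m (Set.Icc 1 j) p B (subV f N l h) →
  (harmonic j : ℝ) * (1 + 4 * k / G) < p * ∑ r ∈ Finset.Icc l k, (l : ℝ) / (r : ℝ) →
  B + N + (k + k * w) + k.choose l + n + G + 2 ≤ Q →
    ∃ D : BF n, Size std D (Q ^ 30) ∧ (∀ x, wit f x = 1 → D x = true) ∧ ∀ x, wit f x = 0 → D x = false

/-! ## Block E: all lengths -/

/-- Nondeterministic circuits which accept the inputs without a witness and reject the inputs with exactly one witness. -/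
def PUN : Prop := ∀ c : ℕ, ∃ c' : ℕ, ∀ (n w : ℕ) (f : BF (n + w)), w ≤ n ^ c + c → Size std f (n ^ c + c) →
  ∃ D : BF n, NSize D (n ^ c' + c') ∧ (∀ x, wit f x = 1 → D x = false) ∧ ∀ x, wit f x = 0 → D x = true

/-- **UPN** (uniform bound; short; port of `Pool/Agent/helper48/ISA/UNP.lean` with `PrunN`, `NSize` monotone). -/
def UPN_stmt : Prop := ∀ (m : ℕ → ℕ) (A : ℕ → Set ℕ) (p : ℕ → ℝ), AllPrunN m A p → ∀ c : ℕ, ∃ c' : ℕ, ∀ (n w : ℕ) (f : BF (n + w)),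
  w ≤ n ^ c + c → Size std f (n ^ c + c) → PrunN (m n) (A n) (p n) (n ^ c' + c') f

/-- **NPB** (medium; from ONN, SVS, UPN, NUM, NCL, PB: `Pool.Agent.PB.pDNF`; compare `Pool/Agent/helper43/ISA/PUB.lean`). Let `a` be a natural number with `a ε ≥ 4`, `N = n^a`, NUM with `ε/4` for `M(N)`: `k ≤ ρ ln M(N) ≤ ρ N^(1-ε)`, so `k n ≤ ρ N^(1 - ε + 1/a) ≤ N` for large `n`;
`p(N) ∑ l/r ≥ (1 - ε/4) p(N) ln M(N) ≥ (1 - ε/4)(1 + ε) H_j ≥ (1 + ε/2) H_j` (`p(N) > 0`). `G = N² ≥ 16 N/ε` gives `1 + 4k/G < 1 + ε/2`. The subset verifier at length `N` has witnesses of length `k + k w` and size `≤ (poly n)^8` (SVS), both `≤ N^c1 + c1`; UPN gives `PrunN` with `B = N^c2 + c2`;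
ONN gives `D` with a polynomial bound. For the finitely many small `n`: every function has a circuit, finitely many functions. -/
def NPB_stmt : Prop := ∀ (ε : ℝ) (j : ℕ) (m M : ℕ → ℕ) (p : ℕ → ℝ), 0 < ε → ε < 1 → 1 ≤ j → (∀ n, M n ≤ m n) →
  (∀ᶠ n : ℕ in atTop, 2 ≤ M n ∧ Real.log (M n) ≤ (n : ℝ) ^ (1 - ε) ∧ (1 + ε) * (harmonic j : ℝ) ≤ p n * Real.log (M n)) →
  AllPrunN m (fun _ => Set.Icc 1 j) p → PUN

/-- **DPB** (medium; from OND, SVS, ISA.UNP, NUM, PB: `Pool.Agent.PB.pDNF`; compare `Pool/Agent/helper43/ISA/PUB.lean`). We may assume `ε < 1`. As NPB: `N = n²`, `k ≤ ρ ln M(N) ≤ ρ c ln N`, `k n ≤ N`; `C(k,l) ≤ M(N) ≤ N^c`. -/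
def DPB_stmt : Prop := ∀ (ε : ℝ) (j c : ℕ) (m M : ℕ → ℕ) (p : ℕ → ℝ), 0 < ε → 1 ≤ j → (∀ n, M n ≤ m n) →
  (∀ᶠ n : ℕ in atTop, 2 ≤ M n ∧ M n ≤ n ^ c ∧ (1 + ε) * (harmonic j : ℝ) ≤ p n * Real.log (M n)) →
  AllPrun m (fun _ => Set.Icc 1 j) p → PU

/-- **VVN** (short/medium; from ISO.CIR, ISO.VVL, ISO.IPS, NCL; compare `Pool/Agent/helper51/ISO/VVA.lean`). `L` in NP/Poly with `f` at length `n`, the list `h` of VVL, `f_l` = [`f` and `hsat (h l)`], `D_l` from PUN: `x ∉ L` iff `D_l x = true` for all `l` (if `x ∉ L` then `wit f_l x = 0` for all `l`, if `x ∈ L` then `wit f_l x = 1` for some `l`);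
NCL (3) with `τ = K`. -/
def VVN_stmt : Prop := PUN → ∀ L : Lang, InNPPoly L → InNPPoly (PB.compl L)

/-- **UNC** (uniform bound; short/medium; port of `Pool/Agent/helper59/ISO/UNN.lean` with `NSize`, for the complements). For every `n` choose among the finitely many `(w, f)` one for which the least `s` with `NSize (x ↦ ∀ y, f(x,y) = false) s` is largest; these `f` form a language in NP/Poly. -/
def UNC_stmt : Prop := (∀ L : Lang, InNPPoly L → InNPPoly (PB.compl L)) → ∀ c : ℕ, ∃ c' : ℕ, ∀ (n w : ℕ) (f : BF (n + w)) (F : BF n),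
  w ≤ n ^ c + c → Size std f (n ^ c + c) → (∀ x, F x = true ↔ ∀ y, f (Fin.append x y) = false) → NSize F (n ^ c' + c')

/-- **LXN** (medium; from UNC, NCL, ISO.CIR, ISO.SEL; port of `Pool/Agent/helper40/ISO/LEX.lean`). `k = 1`, `W (x,y)` = [`V (x,y)` and no `y' < y` with `V (x,y')`] is nondeterministic: `V` is a circuit, the second condition is the complement of an NP property of `(x,y)` (UNC for the length `n + w`). -/
def LXN_stmt : Prop := (∀ L : Lang, InNPPoly L → InNPPoly (PB.compl L)) → ∀ (m : ℕ → ℕ) (A : ℕ → Set ℕ) (p : ℕ → ℝ), (∀ n, 1 ∈ A n) → (∀ n, p n ≤ 1) →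
  AllPrunN m A p

/-! ## Block F: unconditional pruning, all `m` -/

/-- the affine conditions hold for `y` -/
def asat {w t : ℕ} (a : Fin t → (Fin w → Bool) × Bool) (y : Fin w → Bool) : Prop := ∀ i, ip (a i).1 y = (a i).2

open Classical in
/-- **CHB** (Chebyshev; short/medium; from ISO.IPC). By IPC the fraction of the `a` with `asat a y` is `2^(-t)`, with `asat a y` and `asat a y'` (`y ≠ y'`) it is `4^(-t)` (products over `i`); expand the square: the average of `(X - E X)²` is `|K| (2^(-t) - 4^(-t))`. -/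
def CHB_stmt : Prop := ∀ (w t : ℕ) (K : Finset (Fin w → Bool)),
  ∑ a : Fin t → (Fin w → Bool) × Bool, (((K.filter fun y => asat a y).card : ℝ) - K.card / 2 ^ t) ^ 2 ≤
    (K.card / 2 ^ t : ℝ) * Fintype.card (Fin t → (Fin w → Bool) × Bool)

open Classical in
/-- **TSM** (short/medium; from ISO.HIN, ISO.PRM). For `A` injective on `K` the number of the `y ∈ K` with `lin A y ∈ T` is `|T ∩ A K|`, `|A K| = |K|`; PRM (transfer to `Fin (2^r)`; sum over the sizes `1..j`): the inner sum is `bin j |K| x` (for the other `A` it is `≥ 0`). HIN: the fraction of the `A` which are not injective on `K` is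
`≤ |K|²/(2·2^r)`; `bin j |K| x ≥ 0`. -/
def TSM_stmt : Prop := ∀ (w r j : ℕ) (K : Finset (Fin w → Bool)) (x : ℝ), 0 ≤ x → x ≤ 1 →
  (∑ T : Finset (Fin r → Bool), x ^ T.card * (1 - x) ^ (2 ^ r - T.card) = 1) ∧
  (1 - (K.card : ℝ) ^ 2 / (2 * 2 ^ r)) * bin j K.card x * Fintype.card (Fin r → Fin w → Bool) ≤
    ∑ A : Fin r → Fin w → Bool, ∑ T : Finset (Fin r → Bool), x ^ T.card * (1 - x) ^ (2 ^ r - T.card) *
      ind (1 ≤ (K.filter fun y => lin A y ∈ T).card ∧ (K.filter fun y => lin A y ∈ T).card ≤ j)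

/-- the Poisson probability of `1..j` -/
noncomputable def pois (j : ℕ) (x : ℝ) : ℝ := ∑ i ∈ Finset.Icc 1 j, Real.exp (-x) * x ^ i / (i.factorial : ℝ)

/-- **PBC** (short/medium; pure). `δ1 ≤ 1`, `x ≤ 1/2`. For `1 ≤ i ≤ j`: `C(κ,i) ≥ (κ-i)^i / i!` (`i ≤ κ`; `κ x ≥ λ/2` and `x` small), `(κ - j) x ≥ (1 - δ1) λ - j x ≥ (1 - 2 δ1) λ` if `j x ≤ δ1 lo`; `(1-x)^(κ-i) ≥ (1-x)^κ ≥ exp(-κ x (1 + x)) ≥ exp(-λ (1 + δ1)(1 + x)) ≥ exp(-λ) exp(-(2 δ1 + 2 x) hi)`
(`ln(1-x) ≥ -x - x²` for `x ≤ 1/2`). So the ratio is `≥ (1 - 2 δ1)^j exp(-(2 δ1 + 2 x1) hi) ≥ 1 - 2 j δ1 - (2 δ1 + 2 x1) hi`. -/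
def PBC_stmt : Prop := ∀ (j : ℕ) (δ lo hi : ℝ), 0 < δ → 0 < lo → lo < hi → ∃ δ1 x1 : ℝ, 0 < δ1 ∧ δ1 ≤ 1 ∧ 0 < x1 ∧ x1 ≤ 1 / 2 ∧
  ∀ (κ : ℕ) (x lam : ℝ), 0 < x → x ≤ x1 → lo ≤ lam → lam ≤ hi → |κ * x - lam| ≤ δ1 * lam → (1 - δ) * pois j lam ≤ bin j κ x

/-- **POI** (short/medium; pure). `∫_0^∞ e^(-x) x^(i-1) dx = (i-1)!` (`Real.Gamma`, `Real.Gamma_nat_eq_factorial`, `Real.Gamma_eq_integral`), so `∫_0^∞ pois j x / x = ∑_(i=1..j) 1/i`; approximate by `[lo, hi]` (`intervalIntegral_tendsto_integral_Ioi`, ..). -/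
def POI_stmt : Prop := ∀ (j : ℕ) (δ : ℝ), 0 < δ → ∃ lo hi : ℝ, 0 < lo ∧ lo < 1 ∧ 1 < hi ∧
  (harmonic j : ℝ) - δ ≤ ∫ x in lo..hi, pois j x / x

open Classical in
/-- the lower bound for the probability that the pruning with density `d` leaves `1..j` of `κ` witnesses -/
noncomputable def GG (δ b lo hi : ℝ) (κ0 j κ : ℕ) (d : ℝ) : ℝ :=
  if κ ≤ κ0 then (if b ≤ d then (1 - δ) * bin j κ d else 0) else (if lo ≤ κ * d ∧ κ * d ≤ hi then (1 - δ) * pois j (κ * d) else 0)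

/-- **GIN** (short/medium; from ISO.BET). Case `κ ≤ κ0`: the integral of `GG/d` is `(1-δ) ∫_b^1 bin j κ d / d ≥ (1-δ) (H_min - κ b)` (BET with `a = b`), `κ b ≤ κ0 b ≤ δ`. Case `κ > κ0 ≥ hi`: it is `(1-δ) ∫_(lo/κ)^(hi/κ) pois j (κ d) / d dd = (1-δ) ∫_lo^hi pois j x / x dx`, as `lo/m ≤ lo/κ` and `hi/κ ≤ 1`. (The functions are piecewise
continuous; split the interval.) -/
def GIN_stmt : Prop := ∀ (δ b lo hi : ℝ) (κ0 j κ m : ℕ), 0 < δ → δ < 1 → 0 < b → b ≤ 1 → 0 < lo → lo < 1 → 1 < hi → hi ≤ κ0 → κ0 * b ≤ δ → 1 ≤ κ → κ ≤ m →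
  lo / m ≤ b → (harmonic j : ℝ) - δ ≤ ∫ x in lo..hi, pois j x / x →
  IntervalIntegrable (fun d => GG δ b lo hi κ0 j κ d / d) MeasureTheory.volume (lo / m) 1 ∧
  (1 - δ) * ((harmonic (min j κ) : ℝ) - δ) ≤ ∫ d in (lo / m)..1, GG δ b lo hi κ0 j κ d / d

open Classical in
/-- **LEV** (one density; medium; from CHB, TSM, PBC). Constants: `δ1`, `x1` from PBC with `δ/4`; `κ0 ≥ hi/x1`, `κ0 ≥ hi`; `b ≤ x1/2`, `b ≤ 1`, `κ0 b ≤ δ`, `2 b ≤ (δ/4) δ1² lo`; `r` with `(2 hi/b)² ≤ (δ/4) · 2 · 2^r` and `κ0² ≤ (δ/4) · 2 · 2^r`. Given `d`: if `d ≥ b` let `t = 0`, `x = d`; otherwise `t ≥ 1` with `b ≤ x = 2^t d < 2b`.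
`κ = |K| ≤ κ0`: `GG = 0` if `d < b`, otherwise TSM (`t = 0`). `κ > κ0` and `lam = κ d ∈ [lo, hi]` (otherwise `GG = 0`): `x ≤ x1` (for `t = 0`: `d ≤ hi/κ0`). `t = 0`: PBC with `κ`, `κ ≤ hi/b`, TSM. `t ≥ 1`: `κ 2^(-t) = lam/x ≥ lo/(2b)`; by CHB all but the fraction `1/(δ1² κ 2^(-t)) ≤ δ/4` of the `a` satisfy
`|κ' - κ 2^(-t)| ≤ δ1 κ 2^(-t)`, `κ'` = number of the `y ∈ K` with `asat a y`; for these `|κ' x - lam| ≤ δ1 lam`, `κ' ≤ 2 hi/b`: TSM and PBC. Altogether `≥ (1 - δ/4)^3 ≥ 1 - δ`. -/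
def LEV_stmt : Prop := ∀ (j : ℕ) (δ lo hi : ℝ), 0 < δ → δ < 1 → 0 < lo → lo < 1 → 1 < hi → ∃ (κ0 r : ℕ) (b : ℝ), 0 < b ∧ b ≤ 1 ∧ hi ≤ κ0 ∧ κ0 * b ≤ δ ∧
  ∀ (w : ℕ) (d : ℝ), 0 < d → d ≤ 1 → ∃ (t : ℕ) (x : ℝ), 0 ≤ x ∧ x ≤ 1 ∧ 2 ^ t * d ≤ 1 ∧ ∀ K : Finset (Fin w → Bool), 1 ≤ K.card →
    GG δ b lo hi κ0 j K.card d * (Fintype.card (Fin t → (Fin w → Bool) × Bool) * Fintype.card (Fin r → Fin w → Bool)) ≤
      ∑ a : Fin t → (Fin w → Bool) × Bool, ∑ A : Fin r → Fin w → Bool, ∑ T : Finset (Fin r → Bool), x ^ T.card * (1 - x) ^ (2 ^ r - T.card) *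
        ind (1 ≤ (K.filter fun y => asat a y ∧ lin A y ∈ T).card ∧ (K.filter fun y => asat a y ∧ lin A y ∈ T).card ≤ j)

open Classical in
/-- **KEY** (medium; from LEV, POI, GIN, TSM). Let `ε < 1`, `δ = ε/8`, `lo`, `hi` from POI, `κ0, r, b` from LEV. Suppose that for all `t, a, A, T` with `2^t ≤ M m` the sum is `< q = (1-ε) H_j / ln m`. For `d ∈ [lo/m, 1]` LEV (multiply by `μ a`, sum over `a`; the weights of the `T` have the sum `1`, `2^t ≤ 1/d ≤ m/lo ≤ M m`) gives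
`∑_a μ a GG (..) |Kf a| d ≤ q`. Divide by `d` and integrate (GIN): `∑_a μ a (1-δ) (H_min(j,|Kf a|) - δ) ≤ q ln(m/lo)`. `t = 0`, `T = univ`: the weight of the `a` with `|Kf a| ≤ j` is `≤ q`, so `∑_a μ a H_min(j,|Kf a|) ≥ (1 - q) H_j`. So `(1-δ) ((1-q) H_j - δ) ≤ q (ln m + ln(1/lo))`: for large `m` the left side is
`≥ (1 - ε/2) H_j`, the right side `≤ (1 - ε) H_j (1 + ε/4)`: a contradiction. (`ε ≥ 1`: any `t, a, A, T`; or from the case `ε = 1/2`.) -/
def KEY_stmt : Prop := ∀ (ε : ℝ) (j : ℕ), 0 < ε → 1 ≤ j → ∃ M r : ℕ, ∀ (w m : ℕ) (α : Type) [Fintype α] (Kf : α → Finset (Fin w → Bool)) (μ : α → ℝ),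
  M ≤ m → (∀ a, 0 ≤ μ a) → ∑ a, μ a = 1 → (∀ a, 1 ≤ (Kf a).card ∧ (Kf a).card ≤ m) →
  ∃ (t : ℕ) (a : Fin t → (Fin w → Bool) × Bool) (A : Fin r → Fin w → Bool) (T : Finset (Fin r → Bool)), 2 ^ t ≤ M * m ∧
    (1 - ε) * (harmonic j : ℝ) / Real.log m ≤
      ∑ e, μ e * ind (1 ≤ ((Kf e).filter fun y => asat a y ∧ lin A y ∈ T).card ∧ ((Kf e).filter fun y => asat a y ∧ lin A y ∈ T).card ≤ j)

/-- **PRS** (size of a pruner; short; from ISO.CIR, ISO.IPS, ISO.TBS). TBS for `f` and the table; `t` affine conditions by IPS (first part) and CIR. -/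
def PRS_stmt : Prop := ∀ (n w r t s : ℕ) (f F : BF (n + w)) (a : Fin t → (Fin w → Bool) × Bool) (A : Fin r → Fin w → Bool) (T : Finset (Fin r → Bool)), Size std f s →
  (∀ x y, F (Fin.append x y) = true ↔ f (Fin.append x y) = true ∧ asat a y ∧ lin A y ∈ T) →
    Size std F (s + 100 * 2 ^ r * (r + 1) * (w + 1) ^ 2 + 100 * (t + 1) * (w + 1) ^ 2 + 20)

/-- **UPR** (medium; from KEY, PRS, ISO.PTL, ISO.CIR; compare `Pool/Agent/helper77/ISA/PB1.lean`, `Pool/Agent/helper26/ISA/PB2.lean`). `M', r` from KEY with `ε/2`, `M = M' + 3`. For `f` (witnesses of length `w`) let `m' = min (m n) (max M (2^w))`: `M ≤ m' ≤ m n`, `wit f x ≤ 2^w`. PTL with `α` = the `x` with `1 ≤ wit f x ≤ m n` (if there is none: trivial),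
`ι` = the `(t, a, A, T)` with `2^t ≤ M' m'` (so `t ≤ w + M' + M`), `hit` = the number of the witnesses with `asat a y ∧ lin A y ∈ T` is in `[1, j]`, `q = (1 - ε/2) H_j / ln m'`, `lam = ε/8`: at least `(1 - lam) q k - n ln 2/lam ≥ p k` pruners hit, if `k ≥ 100 n ln m'/ε² + 1` (`p ≤ (1-ε) H_j/ln (m n) ≤ (1-ε) H_j / ln m'` if `p ≥ 0`, `H_j ≥ 1`).
Everything is polynomial in `n` (`ln m' ≤ w + M`). -/
def UPR_stmt : Prop := ∀ (ε : ℝ) (j : ℕ), 0 < ε → ε ≤ 1 → 1 ≤ j → ∃ M : ℕ, ∀ (m : ℕ → ℕ) (p : ℕ → ℝ), (∀ n, M ≤ m n) →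
  (∀ n, p n * Real.log (m n) ≤ (1 - ε) * (harmonic j : ℝ)) → AllPrun m (fun _ => Set.Icc 1 j) p

/-! ## The theorem -/

/-- **FIN** (short/medium; from DPB, NPB, VVN, ISO.VVA, ISA.LEX, LXN, UPR, NCL, ISO.CIR). (1) `M n = min (m n) (n ^ c)`: `2 ≤ M n` because `ln (M n) ≤ 0` otherwise (`p n ≤ 1`, `H_j ≥ 1`, `1 + ε > 0`). DPB, VVA; P/Poly is contained in NP/Poly (`w = 0`); LEX. (2) `M n = min (m n) (2 ^ ⌊n^(1-ε)⌋)`, `ln 2 ≤ 1`: NPB, VVN, LXN. (3) `Size` implies `NSize`. -/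
def FIN_stmt : Prop :=
  (∀ (ε : ℝ) (j c : ℕ) (m : ℕ → ℕ) (p : ℕ → ℝ), 0 < ε → 1 ≤ j → (∀ n, p n ≤ 1) →
    (∀ᶠ n : ℕ in atTop, (1 + ε) * (harmonic j : ℝ) ≤ p n * Real.log (min (m n) (n ^ c) : ℕ)) →
      (AllPrun m (fun _ => Set.Icc 1 j) p ↔ ∀ L : Lang, InPPoly L ↔ InNPPoly L)) ∧
  (∀ (ε : ℝ) (j : ℕ) (m : ℕ → ℕ) (p : ℕ → ℝ), 0 < ε → ε < 1 → 1 ≤ j → (∀ n, p n ≤ 1) →
    (∀ᶠ n : ℕ in atTop, (1 + ε) * (harmonic j : ℝ) ≤ p n * Real.log (min (m n) (2 ^ ⌊(n : ℝ) ^ (1 - ε)⌋₊) : ℕ)) →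
      (AllPrun m (fun _ => Set.Icc 1 j) p → AllPrunN m (fun _ => Set.Icc 1 j) p) ∧
      (AllPrunN m (fun _ => Set.Icc 1 j) p ↔ ∀ L : Lang, InNPPoly L ↔ InNPPoly (PB.compl L))) ∧
  ∀ (ε : ℝ) (j : ℕ), 0 < ε → ε ≤ 1 → 1 ≤ j → ∃ M : ℕ, ∀ (m : ℕ → ℕ) (p : ℕ → ℝ), (∀ n, M ≤ m n) →
    (∀ n, p n * Real.log (m n) ≤ (1 - ε) * (harmonic j : ℝ)) → AllPrun m (fun _ => Set.Icc 1 j) p

end Pool.Agent.VVO
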