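import Pool.Agent.helper20.VVO.Spec
import Pool.Agent.helper20.VVO.Defs2

/-!
# Project vvo (MP_069684_lc), second part: the exact critical probability `crit (m, {1..j})` for all `m`, witnesses not longer than the input

Rows `vvo:XXX` with `import Pool.Agent.helper20.VVO.Spec2`; the same RULES as in `Pool/Agent/helper20/VVO/Spec.lean` (namespace `Pool.Agent.VVO`). All rows of Spec.lean and all rows of ISO / ISA are proved; they appear as hypotheses.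
-/

set_option autoImplicit false

open Filter Topology

namespace Pool.Agent.VVO

open Pool.Agent.PB Pool.Agent.ISO Pool.Agent.ISA

/-- **UNS** (uniform bound; short; from ISO.CIR; port of `Pool/Agent/helper48/ISA/UNP.lean` with `w ≤ n`). -/
def UNS_stmt : Prop := ∀ (m : ℕ → ℕ) (A : ℕ → Set ℕ) (p : ℕ → ℝ), AllPrunS m A p → ∀ c : ℕ, ∃ c' : ℕ, ∀ (n w : ℕ) (f : BF (n + w)),
  w ≤ n → Size std f (n ^ c + c) → Prun (m n) (A n) (p n) (n ^ c' + c') f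

/-- **LEN** (choice of the length; medium; from ISA.DNQ, ISO.LIM, ISA.TRN, ISA.THA, NUM). `a` with `a ε ≥ 8 (c + 2)`, `a ≥ 8 (c + 2)`; `θ = crit M (Icc 1 j)`. Case 1, `M ≤ N^(1/2)`: DNQ gives a design with `M' ≤ C M (1 + ln M) ≤ C N^(1/2) (1 + ln N)`, `R ≤ C N^(1/2)`; so `M' n ≤ N`, `R + M' w ≤ N` for large `n`
(`w ≤ n^c + c ≤ n^(c+1)`, `N^(1/2) ≥ n^(4(c+2))`). Case 2, `M > N^(1/2)` is large: by LIM (`crit M (Icc 1 j) = theta M j`, TRN) `θ ln M ≥ (1 - ε/8) H_j`, so `p ln M ≥ (1 + ε)(1 - ε/8) H_j ≥ (1 + ε/2) H_j`. NUM with `ε/8` for `M`: `k ≤ ρ ln M ≤ ρ N^(1-ε)`,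
`k n ≤ N`, `k + k w ≤ k n^(c+2) ≤ N` (`N^ε ≥ n^(8(c+2))`); `p ∑ l/r ≥ (1 - ε/8)(1 + ε/2) H_j ≥ (1 + ε/4) H_j > (1 + 4/N) H_j ≥ (1 + 4 k/N²) H_j`. (Compare the lemmas of `Pool/Agent/helper87/VVO/NPB.lean`.) -/
def LEN_stmt : Prop := ∀ (ε : ℝ) (j : ℕ), 0 < ε → ε < 1 → 1 ≤ j → ∀ c : ℕ, ∃ a n0 : ℕ, 1 ≤ a ∧ ∀ (n w N M : ℕ) (p : ℝ), n0 ≤ n → w ≤ n ^ c + c →
  N = n ^ a → 1 ≤ M → Real.log M ≤ (N : ℝ) ^ (1 - ε) → (1 + ε) * crit M (Set.Icc 1 j) ≤ p →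
  (∃ (M' R : ℕ) (K : Fin M' → Finset (Fin R)), 1 ≤ M' ∧ M' * n ≤ N ∧ R + M' * w ≤ N ∧ Dsg M (Set.Icc 1 j) p K) ∨
  ∃ k l : ℕ, 1 ≤ l ∧ l ≤ k ∧ k.choose l ≤ M ∧ k * n ≤ N ∧ k + k * w ≤ N ∧
    (harmonic j : ℝ) * (1 + 4 * k / ((N ^ 2 : ℕ) : ℝ)) < p * ∑ r ∈ Finset.Icc l k, (l : ℝ) / (r : ℝ)

/-- **DPX** (medium; from LEN, UNS, ISO.LVS, ISA.COR, SVS, OND, PB: DNF; compare `Pool/Agent/helper23/VVO/DPB.lean`, `Pool/Agent/helper43/ISA/PUB.lean`). `a` from LEN, `N = n^a`, `M = min (m N) (μ N)` (for large `n` the two conditions hold at `N`). Case 1: the list verifier at length `N` (witnesses of length `R + M' w ≤ N`, size by LVS),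
UNS, `Dsg (min (m N) (μ N)) → Dsg (m N)`, COR. Case 2: the subset verifier at length `N` (witnesses of length `k + k w ≤ N`, size by SVS), UNS, OND with `G = N²`, `Q` = a power of `N` plus `μ N`. For the finitely many small `n`: every function has a circuit. -/
def DPX_stmt : Prop := ∀ (ε : ℝ) (j : ℕ) (m μ : ℕ → ℕ) (p : ℕ → ℝ), 0 < ε → ε < 1 → 1 ≤ j → (∀ n, 1 ≤ m n) → (∀ n, 1 ≤ μ n) →
  (∀ᶠ n : ℕ in atTop, Real.log (μ n) ≤ (n : ℝ) ^ (1 - ε)) → (∀ᶠ n : ℕ in atTop, (1 + ε) * crit (min (m n) (μ n)) (Set.Icc 1 j) ≤ p n) →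
  AllPrunS m (fun _ => Set.Icc 1 j) p → ∀ c : ℕ, ∃ a c' : ℕ, ∀ (n w : ℕ) (f : BF (n + w)), w ≤ n ^ c + c → Size std f (n ^ c + c) →
    ∃ D : BF n, Size std D ((n + μ (n ^ a)) ^ c' + c') ∧ (∀ x, wit f x = 1 → D x = true) ∧ ∀ x, wit f x = 0 → D x = false

/-- **NPX** (medium; from LEN, UNS, ISO.LVS, ISA.COR, SVS, ONN, NCL, ISO.CIR, PB: DNF; compare `Pool/Agent/helper87/VVO/NPB.lean`). As DPX; in case 1 the circuit of COR is deterministic (negate it; NCL (1)), in case 2 ONN (`Prun` implies `PrunN` by NCL (1)). -/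
def NPX_stmt : Prop := ∀ (ε : ℝ) (j : ℕ) (m μ : ℕ → ℕ) (p : ℕ → ℝ), 0 < ε → ε < 1 → 1 ≤ j → (∀ n, 1 ≤ m n) → (∀ n, 1 ≤ μ n) →
  (∀ᶠ n : ℕ in atTop, Real.log (μ n) ≤ (n : ℝ) ^ (1 - ε)) → (∀ᶠ n : ℕ in atTop, (1 + ε) * crit (min (m n) (μ n)) (Set.Icc 1 j) ≤ p n) →
  AllPrunS m (fun _ => Set.Icc 1 j) p → PUN

/-- **VVG** (short/medium; from ISO.CIR, ISO.VVL, ISO.IPS; port of `Pool/Agent/helper51/ISO/VVA.lean` with the bound `(n + ν n) ^ c' + c'`, `ν n = μ (n ^ a)`). -/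
def VVG_stmt : Prop := ∀ μ : ℕ → ℕ, (∀ c : ℕ, ∃ a c' : ℕ, ∀ (n w : ℕ) (f : BF (n + w)), w ≤ n ^ c + c → Size std f (n ^ c + c) →
    ∃ D : BF n, Size std D ((n + μ (n ^ a)) ^ c' + c') ∧ (∀ x, wit f x = 1 → D x = true) ∧ ∀ x, wit f x = 0 → D x = false) →
  ∀ L : Lang, InNPPoly L → ∃ a c : ℕ, ∀ n, Size std (L n) ((n + μ (n ^ a)) ^ c + c)

/-- **UPX** (short/medium; from UPR, ISA.PB2, ISA.THA, ISA.TRN, ISO.LIM, ISO.CIR). We may assume `ε ≤ 1` (for `ε > 1` the hypothesis implies `p n ≤ 0`). `M` from UPR, `M2 = max M (max j 2)`. If `m n ≥ M2` then `p n ln (m n) ≤ (1 - ε) (H_j / H_(m n)) ln (m n) ≤ (1 - ε) H_j`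
(`crit m (Icc 1 j) = theta m j`, LIM, `ln m ≤ H_m`): UPR for `max (m n) M2` and `if M2 ≤ m n then p n else 0`. PB2 for `min (m n) M2` and `p` (`crit (m n) ≤ crit M2` if `M2 ≤ m n`, THA last part). For every `V`: the larger of the two exponents (`Prun` is monotone in `B`). -/
def UPX_stmt : Prop := ∀ (ε : ℝ) (j : ℕ) (m : ℕ → ℕ) (p : ℕ → ℝ), 0 < ε → 1 ≤ j → (∀ n, 1 ≤ m n) →
  (∀ n, p n ≤ (1 - ε) * crit (m n) (Set.Icc 1 j)) → AllPrun m (fun _ => Set.Icc 1 j) p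

/-- **FNX** (short/medium; from DPX, NPX, VVG, VVN, ISO.VVA, ISA.LEX, UPX, ISO.TWO, ISO.LIM, ISA.TRN, ISA.THA, ISO.CIR). (1) We may assume `ε < 1` (`crit ≥ 0`). `μ n = max 1 (n ^ c)`, `ln (μ n) ≤ n^(1-ε)` for large `n`; DPX: `(n + μ (n^a))^c' + c'` is polynomially bounded, so PU; VVA; P/Poly is contained in NP/Poly (`w = 0`). LEX.
(2) NPX, VVN (for `L` and for its complement), DPX, VVG. (3) UPX. (4) as in `Pool/Agent/helper92/ISA/FNQ.lean`. -/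
def FNX_stmt : Prop :=
  (∀ (ε : ℝ) (j c : ℕ) (m : ℕ → ℕ) (p : ℕ → ℝ), 0 < ε → 1 ≤ j → (∀ n, 1 ≤ m n) → (∀ n, p n ≤ 1) →
    (∀ᶠ n : ℕ in atTop, (1 + ε) * crit (min (m n) (n ^ c)) (Set.Icc 1 j) ≤ p n) →
      (AllPrun m (fun _ => Set.Icc 1 j) p ↔ ∀ L : Lang, InPPoly L ↔ InNPPoly L) ∧
      (AllPrunS m (fun _ => Set.Icc 1 j) p ↔ ∀ L : Lang, InPPoly L ↔ InNPPoly L)) ∧
  (∀ (ε : ℝ) (j : ℕ) (m μ : ℕ → ℕ) (p : ℕ → ℝ), 0 < ε → ε < 1 → 1 ≤ j → (∀ n, 1 ≤ m n) → (∀ n, 1 ≤ μ n) →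
    (∀ᶠ n : ℕ in atTop, Real.log (μ n) ≤ (n : ℝ) ^ (1 - ε)) →
    (∀ᶠ n : ℕ in atTop, (1 + ε) * crit (min (m n) (μ n)) (Set.Icc 1 j) ≤ p n) → AllPrunS m (fun _ => Set.Icc 1 j) p →
      (∀ L : Lang, InNPPoly L ↔ InNPPoly (PB.compl L)) ∧
      ∀ L : Lang, InNPPoly L → ∃ a c : ℕ, ∀ n, Size std (L n) ((n + μ (n ^ a)) ^ c + c)) ∧
  (∀ (ε : ℝ) (j : ℕ) (m : ℕ → ℕ) (p : ℕ → ℝ), 0 < ε → 1 ≤ j → (∀ n, 1 ≤ m n) →
    (∀ n, p n ≤ (1 - ε) * crit (m n) (Set.Icc 1 j)) → AllPrun m (fun _ => Set.Icc 1 j) p) ∧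
  crit 2 {1} = 1 / 2 ∧
  (∀ m j : ℕ, 1 ≤ j → j ≤ m → crit m (Set.Icc 1 j) ≤ (harmonic j : ℝ) / (harmonic m : ℝ)) ∧
  ∀ j : ℕ, 1 ≤ j → Tendsto (fun m : ℕ => crit m (Set.Icc 1 j) * Real.log m) atTop (𝓝 (harmonic j : ℝ))

end Pool.Agent.VVO
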